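import Mathlib

/-!
# MP_bf3f21_gt: symmetric trivalent graphs vanish integrally. Basic definitions

Half-edges are pairs `(v, i) : V × Fin 3`, the cyclic order at `v` is `(v,0), (v,1), (v,2)`. A graph is a
fixed point free involution `m` of the half-edges. `F m` stands for the class of `m` in the module.
-/

set_option autoImplicit false

namespace Pool.Agent.helper16.GHS

open Equiv Finset

variable {V : Type} [Fintype V] [DecidableEq V]

lemma pis {H : Type} (g : Perm H) (x : H) : g⁻¹ (g x) = x := g.symm_apply_apply x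

lemma psi {H : Type} (g : Perm H) (x : H) : g (g⁻¹ x) = x := g.apply_symm_apply x

/-- `+1` if the map respects the cyclic order (for a bijection), `-1` otherwise. -/
def sg (f : Fin 3 → Fin 3) : ℤ := if f 1 = f 0 + 1 then 1 else -1

lemma sg_comp : ∀ f f' : Perm (Fin 3), sg (fun i => f (f' i)) = sg f * sg f' := by decide

lemma sg_sq : ∀ f : Perm (Fin 3), sg f * sg f = 1 := by decide

/-- `g` maps the half-edges of `v` to the half-edges of `σ v`. -/
def FP (g : Perm (V × Fin 3)) (σ : Perm V) : Prop := ∀ h, (g h).1 = σ h.1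

/-- The sign: product over the vertices. -/
def eps (g : Perm (V × Fin 3)) : ℤ := ∏ v, sg (fun i => (g (v, i)).2)

omit [Fintype V] [DecidableEq V] in
lemma FP.mul {g g' : Perm (V × Fin 3)} {σ σ' : Perm V} (h : FP g σ) (h' : FP g' σ') :
    FP (g * g') (σ * σ') := by
  intro x
  rw [Perm.mul_apply, h, h', Perm.mul_apply]

omit [Fintype V] [DecidableEq V] in
lemma FP.inv {g : Perm (V × Fin 3)} {σ : Perm V} (h : FP g σ) : FP g⁻¹ σ⁻¹ := by
  intro x
  have h1 := h (g⁻¹ x)
  rw [psi] at h1
  rw [h1, pis]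

omit [Fintype V] [DecidableEq V] in
lemma FP.one : FP (1 : Perm (V × Fin 3)) 1 := fun _ => rfl

omit [Fintype V] [DecidableEq V] in
lemma FP.pow {g : Perm (V × Fin 3)} {σ : Perm V} (h : FP g σ) (n : ℕ) : FP (g ^ n) (σ ^ n) := by
  induction n with
  | zero => rw [pow_zero, pow_zero]; exact FP.one
  | succ n ih => rw [pow_succ, pow_succ]; exact ih.mul h

omit [Fintype V] [DecidableEq V] in
/-- The local permutation at `v`. -/
lemma FP.loc {g : Perm (V × Fin 3)} {σ : Perm V} (h : FP g σ) (v : V) :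
    ∃ p : Perm (Fin 3), ∀ i, g (v, i) = (σ v, p i) := by
  have hinj : Function.Injective fun i : Fin 3 => (g (v, i)).2 := by
    intro i j hij
    have h1 : g (v, i) = g (v, j) := Prod.ext ((h (v, i)).trans (h (v, j)).symm) hij
    exact (Prod.mk.inj (g.injective h1)).2
  refine ⟨Equiv.ofBijective _ (Finite.injective_iff_bijective.mp hinj), fun i => ?_⟩
  exact Prod.ext (h (v, i)) rfl

omit [DecidableEq V] in
lemma eps_mul {g g' : Perm (V × Fin 3)} {σ σ' : Perm V} (h : FP g σ) (h' : FP g' σ') :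
    eps (g * g') = eps g * eps g' := by
  unfold eps
  rw [← Equiv.prod_comp σ' fun v => sg fun i => (g (v, i)).2, ← Finset.prod_mul_distrib]
  refine Finset.prod_congr rfl fun v _ => ?_
  obtain ⟨p, hp⟩ := h.loc (σ' v)
  obtain ⟨p', hp'⟩ := h'.loc v
  have h1 : (fun i => ((g * g') (v, i)).2) = fun i => p (p' i) := by
    funext i
    rw [Perm.mul_apply, hp', hp]
  have h2 : (fun i => (g (σ' v, i)).2) = fun i => p i := by
    funext i
    rw [hp]
  have h3 : (fun i => (g' (v, i)).2) = fun i => p' i := by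
    funext i
    rw [hp']
  rw [h1, h2, h3]
  exact sg_comp p p'

omit [DecidableEq V] in
lemma eps_one : eps (1 : Perm (V × Fin 3)) = 1 := by
  unfold eps
  refine Finset.prod_eq_one fun v _ => ?_
  rfl

omit [DecidableEq V] in
lemma eps_sq {g : Perm (V × Fin 3)} {σ : Perm V} (h : FP g σ) : eps g * eps g = 1 := by
  unfold eps
  rw [← Finset.prod_mul_distrib]
  refine Finset.prod_eq_one fun v _ => ?_
  obtain ⟨p, hp⟩ := h.loc v
  have h2 : (fun i => (g (v, i)).2) = fun i => p i := by
    funext i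
    rw [hp]
  rw [h2]
  exact sg_sq p

omit [DecidableEq V] in
lemma eps_inv {g : Perm (V × Fin 3)} {σ : Perm V} (h : FP g σ) : eps g⁻¹ = eps g := by
  have h1 := eps_mul h h.inv
  rw [mul_inv_cancel, eps_one] at h1
  have h2 := eps_sq h
  calc eps g⁻¹ = (eps g * eps g) * eps g⁻¹ := by rw [h2, one_mul]
    _ = eps g * (eps g * eps g⁻¹) := by ring
    _ = eps g := by rw [← h1, mul_one]

omit [DecidableEq V] in
lemma eps_pow {g : Perm (V × Fin 3)} {σ : Perm V} (h : FP g σ) (n : ℕ) :
    eps (g ^ n) = eps g ^ n := by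
  induction n with
  | zero => rw [pow_zero, pow_zero]; exact eps_one
  | succ n ih => rw [pow_succ, pow_succ, eps_mul (h.pow n) h, ih]

/-! ### Swaps and 3-cycles -/

/-- The 3-cycle `a → b → c → a`. -/
def cyc {H : Type} [DecidableEq H] (a b c : H) : Perm H := swap a b * swap b c

section cyc

variable {H : Type} [DecidableEq H] {a b c d : H}

lemma conj_swap (g : Perm H) (a b : H) : g * swap a b * g⁻¹ = swap (g a) (g b) := by
  rw [mul_swap_eq_swap_mul, mul_inv_cancel_right]

lemma conj_cyc (g : Perm H) (a b c : H) : g * cyc a b c * g⁻¹ = cyc (g a) (g b) (g c) := by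
  unfold cyc
  rw [← conj_swap, ← conj_swap]
  group

lemma cyc_a (hac : a ≠ c) (hab : a ≠ b) : cyc a b c a = b := by
  unfold cyc
  rw [Perm.mul_apply, swap_apply_of_ne_of_ne hab hac, swap_apply_left]

lemma cyc_b (hac : a ≠ c) (hbc : b ≠ c) : cyc a b c b = c := by
  unfold cyc
  rw [Perm.mul_apply, swap_apply_left, swap_apply_of_ne_of_ne (Ne.symm hac) (Ne.symm hbc)]

lemma cyc_c : cyc a b c c = a := by
  unfold cyc
  rw [Perm.mul_apply, swap_apply_right, swap_apply_right]

lemma cyc_of_ne {x : H} (ha : x ≠ a) (hb : x ≠ b) (hc : x ≠ c) : cyc a b c x = x := by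
  unfold cyc
  rw [Perm.mul_apply, swap_apply_of_ne_of_ne hb hc, swap_apply_of_ne_of_ne ha hb]

lemma cyc_inv_a : (cyc a b c)⁻¹ a = c := by
  rw [Perm.inv_eq_iff_eq, cyc_c]

end cyc

end Pool.Agent.helper16.GHS
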