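import Pool.Agent.helper16.GHS.Forms

/-!
# The concrete twisted and plain cases
-/

set_option autoImplicit false

namespace Pool.Agent.helper16.GHS

open Equiv Finset

variable {V : Type} [Fintype V] [DecidableEq V]
variable {B : Type} [AddCommGroup B] {F : Perm (V × Fin 3) → B}

omit [Fintype V] in
lemma cj_swap_self {m : Perm (V × Fin 3)} (hm : Mat m) {x y : V × Fin 3} (hy : m x = y) :
    cj (swap x y) m = m := by
  have hy' : m y = x := by rw [← hy, hm.1]
  ext1 h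
  rw [cj_apply, swap_inv]
  by_cases h1 : h = x
  · rw [h1, swap_apply_left, hy', hy, swap_apply_left]
  by_cases h2 : h = y
  · rw [h2, swap_apply_right, hy, hy', swap_apply_right]
  rw [swap_apply_of_ne_of_ne h1 h2, swap_apply_of_ne_of_ne]
  · intro h3
    apply h2
    rw [← hm.1 h, h3, hy]
  · intro h3
    apply h1
    rw [← hm.1 h, h3, hy']

omit [Fintype V] in
lemma OD.comm {m π : Perm (V × Fin 3)} {σ : Perm V} (hπ : FP π σ) {K : ℕ}
    {x a b c : V × Fin 3} (hO : OD m π K x a b c) {i : ℕ} (hi : 1 ≤ i) (hi' : i < K + 1)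
    {g : Perm (V × Fin 3)}
    (hg : ∀ h : V × Fin 3, h.1 ≠ x.1 → h.1 ≠ (m x).1 → g h = h) :
    Commute g (zs π a b c i) := by
  have ea : ((π ^ i) a).1 = ((π ^ i) x).1 := FP_fst (hπ.pow i) hO.ha
  have eb : ((π ^ i) b).1 = ((π ^ i) x).1 := FP_fst (hπ.pow i) hO.hb
  have ec : ((π ^ i) c).1 = ((π ^ i) (m x)).1 := FP_fst (hπ.pow i) hO.hc
  apply Perm.Disjoint.commute
  intro h
  by_cases h1 : h.1 = x.1
  · right
    have n1 : h.1 ≠ ((π ^ i) x).1 := by
      intro h2
      have := hO.xx 0 (by omega) i hi' (h1.symm.trans h2)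
      omega
    refine cyc_of_ne (ne_of_fst ?_) (ne_of_fst ?_) (ne_of_fst ?_)
    · rw [ea]; exact n1
    · rw [eb]; exact n1
    · rw [ec, h1]; exact hO.xy 0 (by omega) i hi'
  by_cases h2 : h.1 = (m x).1
  · right
    have n1 : h.1 ≠ ((π ^ i) x).1 := by
      rw [h2]
      exact Ne.symm (hO.xy i hi' 0 (by omega))
    refine cyc_of_ne (ne_of_fst ?_) (ne_of_fst ?_) (ne_of_fst ?_)
    · rw [ea]; exact n1
    · rw [eb]; exact n1
    · rw [ec]
      intro h3
      have := hO.yy 0 (by omega) i hi' (h2.symm.trans h3)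
      omega
  · exact Or.inl (hg h h1 h2)

omit [Fintype V] in
lemma cyc_out {p q r h : V × Fin 3} {u w : V} (hp : p.1 = u ∨ p.1 = w) (hq : q.1 = u ∨ q.1 = w)
    (hr : r.1 = u ∨ r.1 = w) (h1 : h.1 ≠ u) (h2 : h.1 ≠ w) : cyc p q r h = h := by
  refine cyc_of_ne (ne_of_fst ?_) (ne_of_fst ?_) (ne_of_fst ?_)
  · rcases hp with hp | hp <;> rw [hp] <;> assumption
  · rcases hq with hp | hp <;> rw [hp] <;> assumption
  · rcases hr with hp | hp <;> rw [hp] <;> assumption

omit [Fintype V] in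
lemma swap_out {p q h : V × Fin 3} {u w : V} (hp : p.1 = u ∨ p.1 = w) (hq : q.1 = u ∨ q.1 = w)
    (h1 : h.1 ≠ u) (h2 : h.1 ≠ w) : swap p q h = h := by
  refine swap_apply_of_ne_of_ne (ne_of_fst ?_) (ne_of_fst ?_)
  · rcases hp with hp | hp <;> rw [hp] <;> assumption
  · rcases hq with hp | hp <;> rw [hp] <;> assumption

omit [Fintype V] in
lemma zs_zero (π : Perm (V × Fin 3)) (a b c : V × Fin 3) : zs π a b c 0 = cyc a b c := rfl

omit [Fintype V] in
lemma zs_of {π : Perm (V × Fin 3)} {a b c a' b' c' : V × Fin 3} {n : ℕ} (ha : (π ^ n) a = a')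
    (hb : (π ^ n) b = b') (hc : (π ^ n) c = c') : zs π a b c n = cyc a' b' c' := by
  unfold zs
  rw [ha, hb, hc]

/-- First twisted form. -/
theorem IsWS.T1 (hF : IsWS F) {m π : Perm (V × Fin 3)} {σ : Perm V} (hm : Mat m)
    (hπ : FP π σ) (hc : cj π m = m) (he : eps π = -1) (K : ℕ) {x a b c : V × Fin 3}
    (hO : OD m π K x a b c) (hka : (π ^ (K + 1)) a = b) (hkb : (π ^ (K + 1)) b = a)
    (hkc : (π ^ (K + 1)) c = c) : F m = 0 := by
  have h1 := zs_of hka hkb hkc
  have hn : x.1 ≠ (m x).1 := hO.xy 0 (by omega) 0 (by omega)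
  have hac : a ≠ c := ne_of_fst (by rw [hO.ha, hO.hc]; exact hn)
  have hbc : b ≠ c := ne_of_fst (by rw [hO.hb, hO.hc]; exact hn)
  have h2 : (cyc a b c)⁻¹ = cyc b a c := cyc_inv3 hO.hab hac hbc
  have h3 : zs π a b c (K + 1) = (zs π a b c 0)⁻¹ := by rw [h1, zs_zero, h2]
  refine hF.twist hm hπ hc he K x a b c hO (fun i hi hi' => ?_) fun e => ?_
  · rw [h1]
    exact hO.comm hπ hi hi' fun h n1 n2 =>
      cyc_out (Or.inl hO.hb) (Or.inl hO.ha) (Or.inr hO.hc) n1 n2
  · refine ⟨1, 1, 1, FP.one, eps_one, cj_one m, fun i _ _ => Commute.one_left _, ?_⟩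
    rw [one_mul, mul_one, h3, Units.val_mul, Units.val_neg, Units.val_one, neg_one_mul,
      inv_zpow, zpow_neg]

/-- Second twisted form. -/
theorem IsWS.T2 (hF : IsWS F) {m π : Perm (V × Fin 3)} {σ : Perm V} (hm : Mat m)
    (hπ : FP π σ) (hc : cj π m = m) (he : eps π = -1) (K : ℕ) {x y a b c d : V × Fin 3}
    (hX : HX x y a b c d) (hy : m x = y)
    (hO : OD m π K x a b c) (hka : (π ^ (K + 1)) a = c) (hkb : (π ^ (K + 1)) b = d)
    (hkc : (π ^ (K + 1)) c = b) : F m = 0 := by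
  subst hy
  have h1 := zs_of hka hkb hkc
  refine hF.twist hm hπ hc he K x a b c hO (fun i hi hi' => ?_) fun e => ?_
  · rw [h1]
    exact hO.comm hπ hi hi' fun h n1 n2 =>
      cyc_out (Or.inr hX.hc) (Or.inr hX.hd) (Or.inl hX.hb) n1 n2
  · rcases Int.units_eq_one_or e with rfl | rfl
    · refine ⟨G3 x (m x) a b c d, swap x (m x), _, hX.fp, hX.eps1, cj_swap_self hm rfl,
        fun i hi hi' => ?_, ?_⟩
      · exact hO.comm hπ hi hi' fun h n1 n2 => swap_out (Or.inl rfl) (Or.inr rfl) n1 n2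
      · rw [h1, zs_zero, mul_one, Units.val_neg, Units.val_one, zpow_one, zpow_neg, zpow_one]
        exact id_T2a hX.d6
    · refine ⟨swap a b * swap c d, 1, 1 * 1, (FP_swap (hX.ha.trans hX.hb.symm)).mul
        (FP_swap (hX.hc.trans hX.hd.symm)), ?_, cj_one m, fun i hi hi' => Commute.one_left _, ?_⟩
      · rw [eps_mul (FP_swap (hX.ha.trans hX.hb.symm)) (FP_swap (hX.hc.trans hX.hd.symm)),
          eps_swap hX.hab (hX.ha.trans hX.hb.symm), eps_swap hX.hcd (hX.hc.trans hX.hd.symm)]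
        norm_num
      · rw [h1, zs_zero, mul_one, neg_one_mul, neg_neg, Units.val_neg, Units.val_one, zpow_one,
          zpow_neg, zpow_one]
        exact id_T2b hX.d6

/-- The plain form. -/
theorem IsWS.P1 (hORB : ORB_stmt) (hF : IsWS F) {m π : Perm (V × Fin 3)} {σ : Perm V}
    (hm : Mat m) (hπ : FP π σ) (hc : cj π m = m) (he : eps π = -1) (K n : ℕ) (hK : K + 1 = 2 ^ n)
    {x y a b c d : V × Fin 3} (hX : HX x y a b c d) (hy : m x = y)
    (hO : OD m π K x a b c) (hka : (π ^ (K + 1)) a = b) (hkb : (π ^ (K + 1)) b = a)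
    (hkc : (π ^ (K + 1)) c = d) :
    F m = (-1 : ℤ) ^ (K + 1) • (F (cj (ZZ (zs π a b c) (K + 1) fun _ => 1) m) +
      F (cj (ZZ (zs π a b c) (K + 1) fun _ => -1) m)) := by
  subst hy
  have h1 := zs_of hka hkb hkc
  refine hF.plain hORB hm hπ hc he K n hK x a b c hO (fun i hi hi' => ?_) fun e => ?_
  · rw [h1]
    exact hO.comm hπ hi hi' fun h n1 n2 =>
      cyc_out (Or.inl hX.hb) (Or.inl hX.ha) (Or.inr hX.hd) n1 n2
  · rcases Int.units_eq_one_or e with rfl | rfl
    · refine ⟨G3 x (m x) a b c d, swap x (m x), _, hX.fp, hX.eps1, cj_swap_self hm rfl,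
        fun i hi hi' => ?_, ?_⟩
      · exact hO.comm hπ hi hi' fun h n1 n2 => swap_out (Or.inl rfl) (Or.inr rfl) n1 n2
      · rw [h1, zs_zero, mul_one, Units.val_one, zpow_one, zpow_one]
        exact id_Pa hX.d6
    · refine ⟨G3 x (m x) a b d c, swap x (m x), _, hX.swap_cd.fp, hX.swap_cd.eps1,
        cj_swap_self hm rfl, fun i hi hi' => ?_, ?_⟩
      · exact hO.comm hπ hi hi' fun h n1 n2 => swap_out (Or.inl rfl) (Or.inr rfl) n1 n2
      · rw [h1, zs_zero, one_mul, Units.val_neg, Units.val_one, zpow_neg, zpow_one, zpow_neg,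
          zpow_one]
        exact id_Pb hX.d6

end Pool.Agent.helper16.GHS
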