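import Pool.Agent.helper16.GHS.Shift

/-!
# The concrete twisted and plain cases
-/

set_option autoImplicit false

namespace Pool.Agent.helper16.GHS

open Equiv Finset

section perms

variable {H : Type} [DecidableEq H]

/-- Pairwise different elements. -/
structure D6 (x y a b c d : H) : Prop where
  xy : x ≠ y
  xa : x ≠ a
  xb : x ≠ b
  xc : x ≠ c
  xd : x ≠ d
  ya : y ≠ a
  yb : y ≠ b
  yc : y ≠ c
  yd : y ≠ d
  ab : a ≠ b
  ac : a ≠ c
  ad : a ≠ d
  bc : b ≠ c
  bd : b ≠ d
  cd : c ≠ d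

/-- The permutation `(x y)(a c)(b d)`. -/
def G3 (x y a b c d : H) : Perm H := swap x y * (swap a c * swap b d)

omit [DecidableEq H] in
lemma D6.inj {x y a b c d : H} (h : D6 x y a b c d) :
    Function.Injective ![x, y, a, b, c, d] := by
  obtain ⟨xy, xa, xb, xc, xd, ya, yb, yc, yd, ab, ac, ad, bc, bd, cd⟩ := h
  intro i j hij
  fin_cases i <;> fin_cases j <;> first | rfl | exact absurd hij (by assumption) |
    exact absurd hij.symm (by assumption)

/-- The transport of a permutation of six elements. -/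
noncomputable def tr (φ : Fin 6 → H) (hφ : Function.Injective φ) (p : Perm (Fin 6)) : Perm H :=
  p.viaFintypeEmbedding ⟨φ, hφ⟩

lemma tr_mul (φ : Fin 6 → H) (hφ : Function.Injective φ) (p q : Perm (Fin 6)) :
    tr φ hφ (p * q) = tr φ hφ p * tr φ hφ q := by
  ext h
  unfold tr
  rw [Perm.mul_apply]
  by_cases hh : h ∈ Set.range φ
  · obtain ⟨i, rfl⟩ := hh
    have e1 := Perm.viaFintypeEmbedding_apply_image (p * q) ⟨φ, hφ⟩ i
    have e2 := Perm.viaFintypeEmbedding_apply_image q ⟨φ, hφ⟩ i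
    have e3 := Perm.viaFintypeEmbedding_apply_image p ⟨φ, hφ⟩ (q i)
    simp only [Function.Embedding.coeFn_mk] at e1 e2 e3
    rw [e1, e2, e3, Perm.mul_apply]
  · rw [Perm.viaFintypeEmbedding_apply_notMem_range _ _ hh,
      Perm.viaFintypeEmbedding_apply_notMem_range q _ hh,
      Perm.viaFintypeEmbedding_apply_notMem_range p _ hh]

lemma tr_swap (φ : Fin 6 → H) (hφ : Function.Injective φ) (i j : Fin 6) :
    tr φ hφ (swap i j) = swap (φ i) (φ j) := by
  ext h
  unfold tr
  by_cases hh : h ∈ Set.range φ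
  · obtain ⟨k, rfl⟩ := hh
    have e1 := Perm.viaFintypeEmbedding_apply_image (swap i j) ⟨φ, hφ⟩ k
    simp only [Function.Embedding.coeFn_mk] at e1
    rw [e1]
    exact hφ.map_swap i j k
  · rw [Perm.viaFintypeEmbedding_apply_notMem_range _ _ hh]
    symm
    refine swap_apply_of_ne_of_ne ?_ ?_
    · rintro rfl
      exact hh ⟨i, rfl⟩
    · rintro rfl
      exact hh ⟨j, rfl⟩

lemma cyc_inv3 {a b c : H} (hab : a ≠ b) (hac : a ≠ c) (hbc : b ≠ c) :
    (cyc a b c)⁻¹ = cyc b a c := by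
  rw [inv_eq_iff_mul_eq_one]
  ext h
  simp only [cyc, Perm.mul_apply, swap_apply_def, Perm.one_apply]
  split_ifs <;> simp_all

lemma cyc_inv' {x y a b c d : H} (h : D6 x y a b c d) : (cyc a b c)⁻¹ = cyc b a c := by
  have h1 : swap (2 : Fin 6) 3 * swap 3 4 * (swap 3 2 * swap 2 4) = swap 2 2 := by decide
  have h2 := congrArg (tr _ h.inj) h1
  simp only [tr_mul, tr_swap] at h2
  rw [inv_eq_iff_mul_eq_one]
  refine Eq.trans h2 ?_
  exact swap_self _

lemma id_T2a {x y a b c d : H} (h : D6 x y a b c d) :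
    cyc c d b = G3 x y a b c d * (cyc a b c)⁻¹ * swap x y := by
  rw [cyc_inv' h]
  have h1 : swap (4 : Fin 6) 5 * swap 5 3 =
    swap 0 1 * (swap 2 4 * swap 3 5) * (swap 3 2 * swap 2 4) * swap 0 1 := by decide
  have h2 := congrArg (tr _ h.inj) h1
  simp only [tr_mul, tr_swap] at h2
  exact h2

lemma id_T2b {x y a b c d : H} (h : D6 x y a b c d) :
    (cyc c d b)⁻¹ = swap a b * swap c d * cyc a b c := by
  have h1 : swap (4 : Fin 6) 5 * swap 5 3 * (swap 2 3 * swap 4 5 * (swap 2 3 * swap 3 4)) =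
    swap 2 2 := by decide
  have h2 := congrArg (tr _ h.inj) h1
  simp only [tr_mul, tr_swap] at h2
  rw [inv_eq_iff_mul_eq_one]
  refine Eq.trans h2 ?_
  exact swap_self _

lemma id_Pa {x y a b c d : H} (h : D6 x y a b c d) :
    cyc b a d = G3 x y a b c d * cyc a b c * swap x y := by
  have h1 : swap (3 : Fin 6) 2 * swap 2 5 =
    swap 0 1 * (swap 2 4 * swap 3 5) * (swap 2 3 * swap 3 4) * swap 0 1 := by decide
  have h2 := congrArg (tr _ h.inj) h1
  simp only [tr_mul, tr_swap] at h2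
  exact h2

lemma id_Pb {x y a b c d : H} (h : D6 x y a b c d) :
    (cyc b a d)⁻¹ = G3 x y a b d c * (cyc a b c)⁻¹ * swap x y := by
  rw [cyc_inv' h]
  have h1 : swap (3 : Fin 6) 2 * swap 2 5 *
    (swap 0 1 * (swap 2 5 * swap 3 4) * (swap 3 2 * swap 2 4) * swap 0 1) = swap 2 2 := by decide
  have h2 := congrArg (tr _ h.inj) h1
  simp only [tr_mul, tr_swap] at h2
  rw [inv_eq_iff_mul_eq_one]
  refine Eq.trans h2 ?_
  exact swap_self _

section G3

variable {x y a b c d : H}

lemma D6.G3x (h : D6 x y a b c d) : G3 x y a b c d x = y := by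
  unfold G3
  rw [Perm.mul_apply, Perm.mul_apply, swap_apply_of_ne_of_ne h.xb h.xd,
    swap_apply_of_ne_of_ne h.xa h.xc, swap_apply_left]

lemma D6.G3y (h : D6 x y a b c d) : G3 x y a b c d y = x := by
  unfold G3
  rw [Perm.mul_apply, Perm.mul_apply, swap_apply_of_ne_of_ne h.yb h.yd,
    swap_apply_of_ne_of_ne h.ya h.yc, swap_apply_right]

lemma D6.G3a (h : D6 x y a b c d) : G3 x y a b c d a = c := by
  unfold G3
  rw [Perm.mul_apply, Perm.mul_apply, swap_apply_of_ne_of_ne h.ab h.ad, swap_apply_left,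
    swap_apply_of_ne_of_ne h.xc.symm h.yc.symm]

lemma D6.G3c (h : D6 x y a b c d) : G3 x y a b c d c = a := by
  unfold G3
  rw [Perm.mul_apply, Perm.mul_apply, swap_apply_of_ne_of_ne h.bc.symm h.cd, swap_apply_right,
    swap_apply_of_ne_of_ne h.xa.symm h.ya.symm]

lemma D6.G3b (h : D6 x y a b c d) : G3 x y a b c d b = d := by
  unfold G3
  rw [Perm.mul_apply, Perm.mul_apply, swap_apply_left, swap_apply_of_ne_of_ne h.ad.symm h.cd.symm,
    swap_apply_of_ne_of_ne h.xd.symm h.yd.symm]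

lemma D6.G3d (h : D6 x y a b c d) : G3 x y a b c d d = b := by
  unfold G3
  rw [Perm.mul_apply, Perm.mul_apply, swap_apply_right, swap_apply_of_ne_of_ne h.ab.symm h.bc,
    swap_apply_of_ne_of_ne h.xb.symm h.yb.symm]

lemma G3o {h : H} (hx : h ≠ x) (hy : h ≠ y) (ha : h ≠ a) (hb : h ≠ b) (hc : h ≠ c) (hd : h ≠ d) :
    G3 x y a b c d h = h := by
  unfold G3
  rw [Perm.mul_apply, Perm.mul_apply, swap_apply_of_ne_of_ne hb hd,
    swap_apply_of_ne_of_ne ha hc, swap_apply_of_ne_of_ne hx hy]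

end G3

end perms

/-! ### Two vertices -/

section two

variable {V : Type} [Fintype V] [DecidableEq V]

/-- `x, a, b` are the half-edges of a vertex, `y, c, d` those of another one. -/
structure HX (x y a b c d : V × Fin 3) : Prop where
  ha : a.1 = x.1
  hb : b.1 = x.1
  hax : a ≠ x
  hbx : b ≠ x
  hab : a ≠ b
  hc : c.1 = y.1
  hd : d.1 = y.1
  hcy : c ≠ y
  hdy : d ≠ y
  hcd : c ≠ d
  hxy : x.1 ≠ y.1

variable {x y a b c d : V × Fin 3}

omit [Fintype V] [DecidableEq V] in
lemma ne_of_fst {h h' : V × Fin 3} (hn : h.1 ≠ h'.1) : h ≠ h' := fun e => hn (congrArg Prod.fst e)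

omit [Fintype V] [DecidableEq V] in
lemma HX.d6 (h : HX x y a b c d) : D6 x y a b c d := by
  have h1 := h.hxy
  have e1 := h.ha
  have e2 := h.hb
  have e3 := h.hc
  have e4 := h.hd
  constructor
  · exact ne_of_fst h1
  · exact h.hax.symm
  · exact h.hbx.symm
  · exact ne_of_fst (by rw [e3]; exact h1)
  · exact ne_of_fst (by rw [e4]; exact h1)
  · exact ne_of_fst (by rw [e1]; exact h1.symm)
  · exact ne_of_fst (by rw [e2]; exact h1.symm)
  · exact h.hcy.symm
  · exact h.hdy.symm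
  · exact h.hab
  · exact ne_of_fst (by rw [e1, e3]; exact h1)
  · exact ne_of_fst (by rw [e1, e4]; exact h1)
  · exact ne_of_fst (by rw [e2, e3]; exact h1)
  · exact ne_of_fst (by rw [e2, e4]; exact h1)
  · exact h.hcd

omit [Fintype V] [DecidableEq V] in
lemma HX.swap_cd (h : HX x y a b c d) : HX x y a b d c :=
  ⟨h.ha, h.hb, h.hax, h.hbx, h.hab, h.hd, h.hc, h.hdy, h.hcy, h.hcd.symm, h.hxy⟩

omit [Fintype V] [DecidableEq V] in
lemma three {x a b h : V × Fin 3} (ha : a.1 = x.1) (hb : b.1 = x.1) (hax : a ≠ x) (hbx : b ≠ x)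
    (hab : a ≠ b) (hh : h.1 = x.1) : h = x ∨ h = a ∨ h = b := by
  by_cases h0 : h = x
  · exact Or.inl h0
  rcases others ha hax with h1 | h1 <;> rcases others hb hbx with h2 | h2 <;>
    rcases others hh h0 with h3 | h3
  · exact absurd (h1.trans h2.symm) hab
  · exact absurd (h1.trans h2.symm) hab
  · exact Or.inr (Or.inl (h3.trans h1.symm))
  · exact Or.inr (Or.inr (h3.trans h2.symm))
  · exact Or.inr (Or.inr (h3.trans h2.symm))
  · exact Or.inr (Or.inl (h3.trans h1.symm))
  · exact absurd (h1.trans h2.symm) hab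
  · exact absurd (h1.trans h2.symm) hab

omit [Fintype V] in
lemma HX.out {x y a b c d : V × Fin 3} (h : HX x y a b c d) {h' : V × Fin 3} (h1 : h'.1 ≠ x.1)
    (h2 : h'.1 ≠ y.1) : G3 x y a b c d h' = h' := by
  refine G3o (ne_of_fst h1) (ne_of_fst h2) (ne_of_fst ?_) (ne_of_fst ?_) (ne_of_fst ?_)
    (ne_of_fst ?_)
  · rw [h.ha]; exact h1
  · rw [h.hb]; exact h1
  · rw [h.hc]; exact h2
  · rw [h.hd]; exact h2

omit [Fintype V] in
lemma HX.fp (h : HX x y a b c d) : FP (G3 x y a b c d) (swap x.1 y.1) := by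
  intro h'
  by_cases h1 : h'.1 = x.1
  · rw [h1, swap_apply_left]
    rcases three h.ha h.hb h.hax h.hbx h.hab h1 with rfl | rfl | rfl
    · rw [h.d6.G3x]
    · rw [h.d6.G3a, h.hc]
    · rw [h.d6.G3b, h.hd]
  by_cases h2 : h'.1 = y.1
  · rw [h2, swap_apply_right]
    rcases three h.hc h.hd h.hcy h.hdy h.hcd h2 with rfl | rfl | rfl
    · rw [h.d6.G3y]
    · rw [h.d6.G3c, h.ha]
    · rw [h.d6.G3d, h.hb]
  rw [swap_apply_of_ne_of_ne h1 h2, h.out h1 h2]

omit [Fintype V] in
lemma HX.invol (h : HX x y a b c d) (h' : V × Fin 3) :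
    G3 x y a b c d (G3 x y a b c d h') = h' := by
  by_cases h1 : h'.1 = x.1
  · rcases three h.ha h.hb h.hax h.hbx h.hab h1 with rfl | rfl | rfl
    · rw [h.d6.G3x, h.d6.G3y]
    · rw [h.d6.G3a, h.d6.G3c]
    · rw [h.d6.G3b, h.d6.G3d]
  by_cases h2 : h'.1 = y.1
  · rcases three h.hc h.hd h.hcy h.hdy h.hcd h2 with rfl | rfl | rfl
    · rw [h.d6.G3y, h.d6.G3x]
    · rw [h.d6.G3c, h.d6.G3a]
    · rw [h.d6.G3d, h.d6.G3b]
  rw [h.out h1 h2, h.out h1 h2]

lemma HX.eps1 (h : HX x y a b c d) : eps (G3 x y a b c d) = 1 := by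
  have hF := h.fp
  unfold eps
  rw [Finset.prod_eq_mul x.1 y.1 h.hxy]
  · obtain ⟨p, hp⟩ := hF.loc x.1
    obtain ⟨p', hp'⟩ := hF.loc y.1
    rw [swap_apply_left] at hp
    rw [swap_apply_right] at hp'
    have h1 : (fun i => (G3 x y a b c d (x.1, i)).2) = fun i => p i := by
      funext i
      rw [hp]
    have h2 : (fun i => (G3 x y a b c d (y.1, i)).2) = fun i => p' i := by
      funext i
      rw [hp']
    have h3 : (fun i => p' (p i)) = fun i => i := by
      funext i
      have h4 := h.invol (x.1, i)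
      rw [hp, hp'] at h4
      exact (Prod.mk.inj h4).2
    rw [h1, h2, mul_comm, ← sg_comp, h3]
    decide
  · intro v _ hv
    have h1 : (fun i => (G3 x y a b c d (v, i)).2) = fun i => i := by
      funext i
      rw [h.out hv.1 hv.2]
    rw [h1]
    decide
  · intro h1
    exact absurd (Finset.mem_univ _) h1
  · intro h1
    exact absurd (Finset.mem_univ _) h1

lemma eps_swap {a b : V × Fin 3} (hab : a ≠ b) (h : a.1 = b.1) : eps (swap a b) = -1 := by
  obtain ⟨v, i⟩ := a
  obtain ⟨w, j⟩ := b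
  obtain rfl : v = w := h
  have hij : i ≠ j := fun h => hab (by rw [h])
  unfold eps
  rw [Finset.prod_eq_single v]
  · have h1 : (fun k => (swap (v, i) (v, j) (v, k)).2) = fun k => swap i j k := by
      funext k
      by_cases h1 : k = i
      · rw [h1, swap_apply_left, swap_apply_left]
      · by_cases h2 : k = j
        · rw [h2, swap_apply_right, swap_apply_right]
        · rw [swap_apply_of_ne_of_ne h1 h2, swap_apply_of_ne_of_ne]
          · intro h3
            exact h1 (Prod.mk.inj h3).2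
          · intro h3
            exact h2 (Prod.mk.inj h3).2
    rw [h1]
    clear h1 hab
    revert hij
    revert i j
    decide
  · intro u _ hu
    have h1 : (fun k => (swap (v, i) (v, j) (u, k)).2) = fun k => k := by
      funext k
      rw [swap_apply_of_ne_of_ne]
      · exact ne_of_fst hu
      · exact ne_of_fst hu
    rw [h1]
    decide
  · intro h1
    exact absurd (Finset.mem_univ _) h1

end two

end Pool.Agent.helper16.GHS
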