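import Pool.Agent.helper16.GHS.Cases

/-!
# The terms of the plain case have a modified automorphism
-/

set_option autoImplicit false

namespace Pool.Agent.helper16.GHS

open Equiv Finset

lemma ZZ_fix {H : Type} {z : ℕ → Perm H} {K : ℕ} {s : Fin K → ℤˣ} {h : H}
    (hz : ∀ i < K, z i h = h) : ZZ z K s h = h := by
  have h1 : ∀ l : List (Perm H), (∀ p ∈ l, p h = h) → l.prod h = h := by
    intro l
    induction l with
    | nil => intro _; rfl
    | cons p l ih =>
      intro hl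
      rw [List.prod_cons, Perm.mul_apply, ih fun q hq => hl q (List.mem_cons_of_mem _ hq),
        hl p List.mem_cons_self]
  unfold ZZ
  apply h1
  intro p hp
  obtain ⟨i, rfl⟩ := (List.mem_ofFn' _ _).mp hp
  exact zpow_unit_of_fix (hz i i.2) _

lemma dist2 {V : Type} {τ : Perm V} {u w : V} {N : ℕ} (hB : (τ ^ N) u = w)
    (uu : ∀ i < N, ∀ j < N, (τ ^ i) u = (τ ^ j) u → i = j)
    (ww : ∀ i < N, ∀ j < N, (τ ^ i) w = (τ ^ j) w → i = j)
    (uw : ∀ i < N, ∀ j < N, (τ ^ i) u ≠ (τ ^ j) w) :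
    ∀ i < 2 * N, ∀ j < 2 * N, (τ ^ i) u = (τ ^ j) u → i = j := by
  have key : ∀ i, N ≤ i → (τ ^ i) u = (τ ^ (i - N)) w := by
    intro i hi
    have h1 : i = i - N + N := by omega
    rw [← hB, ← Perm.mul_apply, ← pow_add, ← h1]
  intro i hi j hj h
  by_cases h1 : i < N <;> by_cases h2 : j < N
  · exact uu i h1 j h2 h
  · rw [key j (by omega)] at h
    exact absurd h (uw i h1 (j - N) (by omega))
  · rw [key i (by omega)] at h
    exact absurd h.symm (uw j h2 (i - N) (by omega))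
  · rw [key i (by omega), key j (by omega)] at h
    have := ww (i - N) (by omega) (j - N) (by omega) h
    omega

variable {V : Type} [Fintype V] [DecidableEq V]
variable {B : Type} [AddCommGroup B] {F : Perm (V × Fin 3) → B}

omit [Fintype V] [DecidableEq V] in
lemma tw_lt {π g : Perm (V × Fin 3)} {σ : Perm V} (hπ : FP π σ) {u w : V}
    (hg : ∀ h : V × Fin 3, h.1 ≠ u → h.1 ≠ w → g h = h) {h : V × Fin 3} {N : ℕ}
    (hN : ∀ i, 1 ≤ i → i < N → (σ ^ i) h.1 ≠ u ∧ (σ ^ i) h.1 ≠ w) :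
    ∀ i < N, ((g * π) ^ i) h = (π ^ i) h := by
  intro i hi
  induction i with
  | zero => rfl
  | succ i ih =>
    rw [pow_succ', Perm.mul_apply, ih (by omega), Perm.mul_apply, ← Perm.mul_apply π, ← pow_succ']
    refine hg _ ?_ ?_
    · rw [(hπ.pow (i + 1)) h]
      exact (hN (i + 1) (by omega) hi).1
    · rw [(hπ.pow (i + 1)) h]
      exact (hN (i + 1) (by omega) hi).2

/-- The modified automorphism. -/
lemma HX.aut {m π : Perm (V × Fin 3)} {σ : Perm V} (hm : Mat m)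
    (hπ : FP π σ) (hc : cj π m = m) (K : ℕ) {x y a b c d : V × Fin 3}
    (hX : HX x y a b c d) (hy : m x = y) (hO : OD m π K x a b c)
    (hka : (π ^ (K + 1)) a = b) (hkb : (π ^ (K + 1)) b = a) (hkc : (π ^ (K + 1)) c = d) :
    cj (G3 x y a b c d * π) (cj (ZZ (zs π a b c) (K + 1) fun _ => 1) m) =
      cj (ZZ (zs π a b c) (K + 1) fun _ => 1) m := by
  subst hy
  set z := zs π a b c with hz
  set g := G3 x (m x) a b c d with hg
  set q := swap x (m x) with hq
  set R : Perm (V × Fin 3) := (List.ofFn fun i : Fin K => z (i + 1) ^ ((1 : ℤˣ) : ℤ)).prod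
    with hR
  have h1 : ZZ z (K + 1) (fun _ => 1) = z 0 * R := by
    unfold ZZ
    rw [List.ofFn_succ, List.prod_cons]
    congr 1
  have h2 : ZZ (fun i => z (i + 1)) (K + 1) (fun _ => 1) = R * z (K + 1) := by
    unfold ZZ
    rw [List.ofFn_succ', List.prod_concat]
    congr 1
  have hzK : z (K + 1) = cyc b a d := zs_of hka hkb hkc
  have h3 : Commute (z (K + 1)) R := by
    refine Commute.list_prod_right _ _ fun y hy => ?_
    obtain ⟨i, rfl⟩ := (List.mem_ofFn' _ _).mp hy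
    refine Commute.zpow_right ?_ _
    rw [hzK]
    exact hO.comm hπ (by omega) (by omega) fun h n1 n2 =>
      cyc_out (Or.inl hX.hb) (Or.inl hX.ha) (Or.inr hX.hd) n1 n2
  have h4 : Commute q R := by
    refine Commute.list_prod_right _ _ fun y hy => ?_
    obtain ⟨i, rfl⟩ := (List.mem_ofFn' _ _).mp hy
    refine Commute.zpow_right ?_ _
    exact hO.comm hπ (by omega) (by omega) fun h n1 n2 =>
      swap_out (Or.inl rfl) (Or.inr rfl) n1 n2
  have h5 : π * ZZ z (K + 1) (fun _ => 1) = ZZ (fun i => z (i + 1)) (K + 1) (fun _ => 1) * π := by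
    rw [← zs_conj, inv_mul_cancel_right]
  have h6 : z (K + 1) = g * z 0 * q := by
    rw [hzK]
    exact id_Pa hX.d6
  have hgg : g * g = 1 := by
    ext1 h
    exact hX.invol h
  have h7 : g * π * ZZ z (K + 1) (fun _ => 1) = ZZ z (K + 1) (fun _ => 1) * q * π := by
    rw [mul_assoc g, h5, h2, ← h3.eq, h6, h1, mul_assoc (g * z 0), h4.eq]
    calc g * (g * z 0 * (R * q) * π) = g * g * (z 0 * R * q * π) := by simp only [mul_assoc]
      _ = z 0 * R * q * π := by rw [hgg, one_mul]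
  rw [← cj_mul, h7, cj_mul, hc, cj_mul, cj_swap_self hm rfl]

theorem IsWS.C (hF : IsWS F) {m π : Perm (V × Fin 3)} {σ : Perm V} (hm : Mat m)
    (hπ : FP π σ) (hc : cj π m = m) (he : eps π = -1) (K : ℕ) {x y a b c d : V × Fin 3}
    (hX : HX x y a b c d) (hy : m x = y) (hO : OD m π K x a b c)
    (hkx : (π ^ (K + 1)) x = x) (hky : (π ^ (K + 1)) y = y)
    (hka : (π ^ (K + 1)) a = b) (hkb : (π ^ (K + 1)) b = a)
    (hkc : (π ^ (K + 1)) c = d) (hkd : (π ^ (K + 1)) d = c)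
    {x1 a1 b1 : V × Fin 3} (ha1 : a1.1 = x1.1) (hb1 : b1.1 = x1.1) (hax1 : a1 ≠ x1)
    (hbx1 : b1 ≠ x1) (hab1 : a1 ≠ b1) (hx1 : m x1 = a ∨ m x1 = b)
    (h11 : ∀ i < 2 * (K + 1), ∀ j < 2 * (K + 1), (σ ^ i) x1.1 = (σ ^ j) x1.1 → i = j)
    (hka1 : (π ^ (2 * (K + 1))) a1 = b1) (hkb1 : (π ^ (2 * (K + 1))) b1 = a1)
    (hd1 : ∀ i j : ℕ, (σ ^ i) x1.1 ≠ (σ ^ j) x.1) (hd2 : ∀ i j : ℕ, (σ ^ i) x1.1 ≠ (σ ^ j) y.1) :
    F (cj (ZZ (zs π a b c) (K + 1) fun _ => 1) m) = 0 := by
  have haut := hX.aut hm hπ hc K hy hO hka hkb hkc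
  set Z : Perm (V × Fin 3) := ZZ (zs π a b c) (K + 1) fun _ => 1 with hZ
  set g := G3 x y a b c d with hg
  have hgo : ∀ h : V × Fin 3, h.1 ≠ x.1 → h.1 ≠ y.1 → g h = h := fun h n1 n2 => hX.out n1 n2
  have hD := hX.d6
  have hFP : FP (g * π) (swap x.1 y.1 * σ) := hX.fp.mul hπ
  have heps : eps (g * π) = -1 := by rw [eps_mul hX.fp hπ, hX.eps1, he, one_mul]
  -- vertex level data
  have xx : ∀ i < K + 1, ∀ j < K + 1, (σ ^ i) x.1 = (σ ^ j) x.1 → i = j := by
    intro i hi j hj h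
    rw [← (hπ.pow i) x, ← (hπ.pow j) x] at h
    exact hO.xx i hi j hj h
  have yy : ∀ i < K + 1, ∀ j < K + 1, (σ ^ i) y.1 = (σ ^ j) y.1 → i = j := by
    intro i hi j hj h
    rw [← (hπ.pow i) y, ← (hπ.pow j) y, ← hy] at h
    exact hO.yy i hi j hj h
  have xy : ∀ i < K + 1, ∀ j < K + 1, (σ ^ i) x.1 ≠ (σ ^ j) y.1 := by
    intro i hi j hj h
    rw [← (hπ.pow i) x, ← (hπ.pow j) y, ← hy] at h
    exact hO.xy i hi j hj h
  -- powers of the modified automorphism
  have px : ∀ h : V × Fin 3, h.1 = x.1 → ∀ i < K + 1, ((g * π) ^ i) h = (π ^ i) h := by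
    intro h hh
    refine tw_lt hπ hgo fun i hi hi' => ?_
    rw [hh]
    constructor
    · intro h1
      have := xx i hi' 0 (by omega) h1
      omega
    · intro h1
      exact xy i hi' 0 (by omega) h1
  have py : ∀ h : V × Fin 3, h.1 = y.1 → ∀ i < K + 1, ((g * π) ^ i) h = (π ^ i) h := by
    intro h hh
    refine tw_lt hπ hgo fun i hi hi' => ?_
    rw [hh]
    constructor
    · intro h1
      exact xy 0 (by omega) i hi' h1.symm
    · intro h1
      have := yy i hi' 0 (by omega) h1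
      omega
  have p1 : ∀ h : V × Fin 3, h.1 = x1.1 → ∀ i, ((g * π) ^ i) h = (π ^ i) h := by
    intro h hh i
    refine tw_lt hπ hgo (N := i + 1) (fun j hj hj' => ?_) i (Nat.lt_succ_self i)
    rw [hh]
    exact ⟨hd1 j 0, hd2 j 0⟩
  have pK : ∀ h : V × Fin 3, h.1 = x.1 ∨ h.1 = y.1 →
      ((g * π) ^ (K + 1)) h = g ((π ^ (K + 1)) h) := by
    intro h hh
    have h1 : ((g * π) ^ K) h = (π ^ K) h := by
      rcases hh with hh | hh
      · exact px h hh K (Nat.lt_succ_self K)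
      · exact py h hh K (Nat.lt_succ_self K)
    rw [pow_succ', Perm.mul_apply, h1, Perm.mul_apply, pow_succ', Perm.mul_apply]
  have qx : ((g * π) ^ (K + 1)) x = y := by rw [pK x (Or.inl rfl), hkx, hD.G3x]
  have qy : ((g * π) ^ (K + 1)) y = x := by rw [pK y (Or.inr rfl), hky, hD.G3y]
  have qa : ((g * π) ^ (K + 1)) a = d := by rw [pK a (Or.inl hX.ha), hka, hD.G3b]
  have qb : ((g * π) ^ (K + 1)) b = c := by rw [pK b (Or.inl hX.hb), hkb, hD.G3a]
  have qc : ((g * π) ^ (K + 1)) c = b := by rw [pK c (Or.inr hX.hc), hkc, hD.G3d]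
  have qd : ((g * π) ^ (K + 1)) d = a := by rw [pK d (Or.inr hX.hd), hkd, hD.G3c]
  have q2 : ∀ h : V × Fin 3, h.1 = x.1 ∨ h.1 = y.1 → ((g * π) ^ (2 * (K + 1))) h = h := by
    intro h hh
    rw [two_mul, pow_add, Perm.mul_apply]
    rcases hh with hh | hh
    · rcases three hX.ha hX.hb hX.hax hX.hbx hX.hab hh with rfl | rfl | rfl
      · rw [qx, qy]
      · rw [qa, qd]
      · rw [qb, qc]
    · rcases three hX.hc hX.hd hX.hcy hX.hdy hX.hcd hh with rfl | rfl | rfl
      · rw [qy, qx]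
      · rw [qc, qb]
      · rw [qd, qa]
  -- vertex level for the modified automorphism
  set τ : Perm V := swap x.1 y.1 * σ with hτ
  have tx : ∀ i < K + 1, (τ ^ i) x.1 = (σ ^ i) x.1 := by
    intro i hi
    rw [← (hFP.pow i) x, ← (hπ.pow i) x, px x rfl i hi]
  have ty : ∀ i < K + 1, (τ ^ i) y.1 = (σ ^ i) y.1 := by
    intro i hi
    rw [← (hFP.pow i) y, ← (hπ.pow i) y, py y rfl i hi]
  have txN : (τ ^ (K + 1)) x.1 = y.1 := by rw [← (hFP.pow (K + 1)) x, qx]
  have tyN : (τ ^ (K + 1)) y.1 = x.1 := by rw [← (hFP.pow (K + 1)) y, qy]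
  have t1 : ∀ i : ℕ, (τ ^ i) x1.1 = (σ ^ i) x1.1 := by
    intro i
    rw [← (hFP.pow i) x1, ← (hπ.pow i) x1, p1 x1 rfl i]
  have dx : ∀ i < 2 * (K + 1), ∀ j < 2 * (K + 1), (τ ^ i) x.1 = (τ ^ j) x.1 → i = j := by
    refine dist2 txN (fun i hi j hj h => ?_) (fun i hi j hj h => ?_) fun i hi j hj h => ?_
    · rw [tx i hi, tx j hj] at h
      exact xx i hi j hj h
    · rw [ty i hi, ty j hj] at h
      exact yy i hi j hj h
    · rw [tx i hi, ty j hj] at h
      exact xy i hi j hj h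
  have dy : ∀ i < 2 * (K + 1), ∀ j < 2 * (K + 1), (τ ^ i) y.1 = (τ ^ j) y.1 → i = j := by
    refine dist2 tyN (fun i hi j hj h => ?_) (fun i hi j hj h => ?_) fun i hi j hj h => ?_
    · rw [ty i hi, ty j hj] at h
      exact yy i hi j hj h
    · rw [tx i hi, tx j hj] at h
      exact xx i hi j hj h
    · rw [ty i hi, tx j hj] at h
      exact xy j hj i hi h.symm
  have e1 : ∀ i : ℕ, ∀ j < 2 * (K + 1), (τ ^ i) x1.1 ≠ (τ ^ j) x.1 := by
    intro i j hj h
    rw [t1] at h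
    by_cases h1 : j < K + 1
    · rw [tx j h1] at h
      exact hd1 i j h
    · have h2 : j = j - (K + 1) + (K + 1) := by omega
      rw [h2, pow_add, Perm.mul_apply, txN, ty _ (by omega)] at h
      exact hd2 i _ h
  have e2 : ∀ i : ℕ, ∀ j < 2 * (K + 1), (τ ^ i) x1.1 ≠ (τ ^ j) y.1 := by
    intro i j hj h
    rw [t1] at h
    by_cases h1 : j < K + 1
    · rw [ty j h1] at h
      exact hd2 i j h
    · have h2 : j = j - (K + 1) + (K + 1) := by omega
      rw [h2, pow_add, Perm.mul_apply, tyN, tx _ (by omega)] at h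
      exact hd1 i _ h
  -- the new neighbour of x1
  have nx1 : x1.1 ≠ x.1 := hd1 0 0
  have ny1 : x1.1 ≠ y.1 := hd2 0 0
  have zfix : ∀ i, 1 ≤ i → i < K + 1 → ∀ h : V × Fin 3, h.1 = x.1 → zs π a b c i h = h := by
    intro i hi hi' h hh
    refine cyc_of_ne (ne_of_fst ?_) (ne_of_fst ?_) (ne_of_fst ?_)
    · rw [(hπ.pow i) a, hX.ha, hh]
      intro h1
      have := xx 0 (by omega) i hi' h1
      omega
    · rw [(hπ.pow i) b, hX.hb, hh]
      intro h1
      have := xx 0 (by omega) i hi' h1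
      omega
    · rw [(hπ.pow i) c, hX.hc, hh]
      exact xy 0 (by omega) i hi'
  have Zx : ∀ h : V × Fin 3, h.1 = x.1 → Z h = cyc a b c h := by
    intro h hh
    have h1 : Z = zs π a b c 0 * ZZ (fun i => zs π a b c (i + 1)) K (fun _ => 1) := by
      rw [hZ]
      unfold ZZ
      rw [List.ofFn_succ, List.prod_cons]
      congr 1
    rw [h1, Perm.mul_apply, ZZ_fix fun i hi => zfix (i + 1) (by omega) (by omega) h hh]
    rfl
  have Z1 : Z⁻¹ x1 = x1 := by
    rw [Perm.inv_eq_iff_eq]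
    symm
    refine ZZ_fix fun i hi => ?_
    refine cyc_of_ne (ne_of_fst ?_) (ne_of_fst ?_) (ne_of_fst ?_)
    · rw [(hπ.pow i) a, hX.ha]
      exact hd1 0 i
    · rw [(hπ.pow i) b, hX.hb]
      exact hd1 0 i
    · rw [(hπ.pow i) c, hX.hc]
      exact hd2 0 i
  have hm' : Mat (cj Z m) := hm.cj Z
  have hy1 : cj Z m x1 = b ∨ cj Z m x1 = c := by
    rw [cj_apply, Z1]
    rcases hx1 with h1 | h1
    · left
      rw [h1, Zx a hX.ha, cyc_a hD.ac hD.ab]
    · right
      rw [h1, Zx b hX.hb, cyc_b hD.ac hD.bc]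
  have ha1' : ((g * π) ^ (2 * K + 1 + 1)) a1 = b1 := by
    rw [p1 a1 ha1]
    exact hka1
  have hb1' : ((g * π) ^ (2 * K + 1 + 1)) b1 = a1 := by
    rw [p1 b1 hb1]
    exact hkb1
  rcases hy1 with hy1 | hy1
  · have hO' : OD (cj Z m) (g * π) (2 * K + 1) x1 a1 b1 x := by
      constructor
      · exact ha1
      · exact hb1
      · exact hax1
      · exact hbx1
      · exact hab1
      · rw [hy1, hX.hb]
      · rw [hy1]; exact hD.xb
      · intro i hi j hj h
        rw [(hFP.pow i) x1, (hFP.pow j) x1, t1, t1] at h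
        exact h11 i (by omega) j (by omega) h
      · intro i hi j hj h
        rw [hy1, (hFP.pow i) b, (hFP.pow j) b, hX.hb] at h
        exact dx i (by omega) j (by omega) h
      · intro i hi j hj h
        rw [hy1, (hFP.pow i) x1, (hFP.pow j) b, hX.hb] at h
        exact e1 i j (by omega) h
    exact hF.T1 hm' hFP haut heps (2 * K + 1) hO' ha1' hb1' (q2 x (Or.inl rfl))
  · have hO' : OD (cj Z m) (g * π) (2 * K + 1) x1 a1 b1 y := by
      constructor
      · exact ha1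
      · exact hb1
      · exact hax1
      · exact hbx1
      · exact hab1
      · rw [hy1, hX.hc]
      · rw [hy1]; exact hD.yc
      · intro i hi j hj h
        rw [(hFP.pow i) x1, (hFP.pow j) x1, t1, t1] at h
        exact h11 i (by omega) j (by omega) h
      · intro i hi j hj h
        rw [hy1, (hFP.pow i) c, (hFP.pow j) c, hX.hc] at h
        exact dy i (by omega) j (by omega) h
      · intro i hi j hj h
        rw [hy1, (hFP.pow i) x1, (hFP.pow j) c, hX.hc] at h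
        exact e2 i j (by omega) h
    exact hF.T1 hm' hFP haut heps (2 * K + 1) hO' ha1' hb1' (q2 y (Or.inr rfl))

end Pool.Agent.helper16.GHS
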