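import Pool.Agent.helper16.GHS.LemC

/-!
# The two types of vertices
-/

set_option autoImplicit false

namespace Pool.Agent.helper16.GHS

open Equiv Finset

section period

variable {V : Type} [Finite V]

/-- The size of the orbit. -/
noncomputable abbrev kk (σ : Perm V) (v : V) : ℕ := Function.minimalPeriod σ v

lemma kk_pos (σ : Perm V) (v : V) : 0 < kk σ v :=
  Function.minimalPeriod_pos_of_mem_periodicPts (σ.injective.mem_periodicPts v)

omit [Finite V] in
lemma kk_dvd {σ : Perm V} {v : V} {n : ℕ} : (σ ^ n) v = v ↔ kk σ v ∣ n := by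
  rw [← Function.isPeriodicPt_iff_minimalPeriod_dvd, Function.IsPeriodicPt, Function.IsFixedPt,
    Perm.iterate_eq_pow]

omit [Finite V] in
lemma kk_self (σ : Perm V) (v : V) : (σ ^ kk σ v) v = v := kk_dvd.mpr dvd_rfl

omit [Finite V] in
lemma kk_dist (σ : Perm V) (v : V) :
    ∀ i < kk σ v, ∀ j < kk σ v, (σ ^ i) v = (σ ^ j) v → i = j := by
  intro i hi j hj h
  rw [← Perm.iterate_eq_pow, ← Perm.iterate_eq_pow] at h
  exact (Function.iterate_eq_iterate_iff_of_lt_minimalPeriod hi hj).mp h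

lemma kk_apply (σ : Perm V) (v : V) : kk σ (σ v) = kk σ v :=
  Function.minimalPeriod_apply (σ.injective.mem_periodicPts v)

lemma kk_pow (σ : Perm V) (v : V) (n : ℕ) : kk σ ((σ ^ n) v) = kk σ v := by
  induction n with
  | zero => rfl
  | succ n ih => rw [pow_succ', Perm.mul_apply, kk_apply, ih]

omit [Finite V] in
lemma kk_mod (σ : Perm V) (v : V) (n : ℕ) : (σ ^ (n % kk σ v)) v = (σ ^ n) v := by
  have h1 : n = n % kk σ v + kk σ v * (n / kk σ v) := (Nat.mod_add_div n _).symm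
  have h2 : (σ ^ (kk σ v * (n / kk σ v))) v = v := kk_dvd.mpr (Dvd.intro _ rfl)
  conv_rhs => rw [h1, pow_add, Perm.mul_apply, h2]

lemma orbC_apply {σ : Perm V} {c : V → ℤ} (hc : ∀ v, c v * c v = 1) (v : V) :
    orbC σ c (σ v) = orbC σ c v := by
  unfold orbC
  have h0 : Function.minimalPeriod σ (σ v) = Function.minimalPeriod σ v := kk_apply σ v
  rw [h0]
  have h1 := Finset.prod_range_succ (fun i => c ((σ ^ i) v)) (Function.minimalPeriod σ v)
  have h2 := Finset.prod_range_succ' (fun i => c ((σ ^ i) v)) (Function.minimalPeriod σ v)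
  have h3 : (σ ^ Function.minimalPeriod σ v) v = v := kk_self σ v
  rw [h1, h3] at h2
  have h4 : ∏ i ∈ range (Function.minimalPeriod σ v), c ((σ ^ (i + 1)) v) =
      ∏ i ∈ range (Function.minimalPeriod σ v), c ((σ ^ i) (σ v)) := by
    refine Finset.prod_congr rfl fun i _ => ?_
    rw [pow_succ, Perm.mul_apply]
  rw [h4] at h2
  have h5 := congrArg (fun t => t * c v) h2
  simp only [pow_zero, Perm.one_apply] at h5
  rw [mul_assoc, mul_assoc, hc v, mul_one, mul_one] at h5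
  exact h5.symm

lemma orbC_pow {σ : Perm V} {c : V → ℤ} (hc : ∀ v, c v * c v = 1) (v : V) (n : ℕ) :
    orbC σ c ((σ ^ n) v) = orbC σ c v := by
  induction n with
  | zero => rfl
  | succ n ih => rw [pow_succ', Perm.mul_apply, orbC_apply hc, ih]

end period

variable {V : Type} [Fintype V] [DecidableEq V]

/-- The local sign. -/
def lsg (π : Perm (V × Fin 3)) (v : V) : ℤ := sg fun i => (π (v, i)).2

omit [DecidableEq V] in
lemma eps_eq (π : Perm (V × Fin 3)) : eps π = ∏ v, lsg π v := rfl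

omit [Fintype V] [DecidableEq V] in
lemma lsg_sq {π : Perm (V × Fin 3)} {σ : Perm V} (hπ : FP π σ) (v : V) :
    lsg π v * lsg π v = 1 := by
  obtain ⟨p, hp⟩ := hπ.loc v
  have h2 : (fun i => (π (v, i)).2) = fun i => p i := by
    funext i
    rw [hp]
  unfold lsg
  rw [h2]
  exact sg_sq p

omit [Fintype V] [DecidableEq V] in
lemma lsg_pow {π : Perm (V × Fin 3)} {σ : Perm V} (hπ : FP π σ) (v : V) (n : ℕ) :
    lsg (π ^ n) v = ∏ i ∈ range n, lsg π ((σ ^ i) v) := by
  induction n with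
  | zero =>
    rw [Finset.prod_range_zero]
    rfl
  | succ n ih =>
    rw [Finset.prod_range_succ, ← ih]
    obtain ⟨p, hp⟩ := (hπ.pow n).loc v
    obtain ⟨p', hp'⟩ := hπ.loc ((σ ^ n) v)
    have h1 : (fun i => ((π ^ n) (v, i)).2) = fun i => p i := by
      funext i
      rw [hp]
    have h2 : (fun i => (π ((σ ^ n) v, i)).2) = fun i => p' i := by
      funext i
      rw [hp']
    have h3 : (fun i => ((π ^ (n + 1)) (v, i)).2) = fun i => p' (p i) := by
      funext i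
      rw [pow_succ', Perm.mul_apply, hp, hp']
    unfold lsg
    rw [h1, h2, h3, sg_comp, mul_comm]

lemma perm3 : ∀ p : Perm (Fin 3), p * p = 1 → (sg p = 1 ∧ ∀ i, p i = i) ∨
    (sg p = -1 ∧ ∃ i, p i = i ∧ p (i + 1) = i + 2 ∧ p (i + 2) = i + 1) := by decide

lemma perm3_six (p : Perm (Fin 3)) : p ^ 6 = 1 := by
  have h : Fintype.card (Perm (Fin 3)) = 6 := by
    rw [Fintype.card_perm, Fintype.card_fin]
    rfl
  rw [← h]
  exact pow_card_eq_one

lemma perm3_two {p : Perm (Fin 3)} {A : ℕ} (h : p ^ (2 ^ A) = 1) : p * p = 1 := by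
  have h1 : orderOf p ∣ 2 ^ A := orderOf_dvd_of_pow_eq_one h
  have h2 : orderOf p ∣ 6 := orderOf_dvd_of_pow_eq_one (perm3_six p)
  obtain ⟨j, -, hj⟩ := (Nat.dvd_prime_pow Nat.prime_two).mp h1
  have h3 : orderOf p ∣ 2 := by
    rw [hj] at h2 ⊢
    have h4 : Nat.Coprime (2 ^ j) 3 := Nat.Coprime.pow_left j (by decide)
    exact h4.dvd_of_dvd_mul_right (n := 3) (m := 2) h2
  have h5 := orderOf_dvd_iff_pow_eq_one.mp h3
  rwa [pow_two] at h5

/-- The orbit sign. -/
noncomputable abbrev oc (π : Perm (V × Fin 3)) (σ : Perm V) (v : V) : ℤ := orbC σ (lsg π) v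

omit [Fintype V] [DecidableEq V] in
/-- The two types. -/
lemma types {π : Perm (V × Fin 3)} {σ : Perm V} (hπ : FP π σ) {A : ℕ} (hA : π ^ (2 ^ A) = 1)
    (v : V) : (oc π σ v = 1 ∧ ∀ h : V × Fin 3, h.1 = v → (π ^ kk σ v) h = h) ∨
    (oc π σ v = -1 ∧ ∃ x a b : V × Fin 3, x.1 = v ∧ a.1 = x.1 ∧ b.1 = x.1 ∧ a ≠ x ∧ b ≠ x ∧
      a ≠ b ∧ (π ^ kk σ v) x = x ∧ (π ^ kk σ v) a = b ∧ (π ^ kk σ v) b = a) := by
  obtain ⟨p, hp⟩ := (hπ.pow (kk σ v)).loc v
  rw [kk_self] at hp
  have h1 : oc π σ v = sg p := by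
    have h2 := lsg_pow hπ v (kk σ v)
    have h3 : oc π σ v = ∏ i ∈ range (kk σ v), lsg π ((σ ^ i) v) := rfl
    rw [h3, ← h2]
    unfold lsg
    congr 1
    funext i
    rw [hp]
  have h4 : ∀ n : ℕ, ∀ i, ((π ^ kk σ v) ^ n) (v, i) = (v, (p ^ n) i) := by
    intro n
    induction n with
    | zero => intro i; rfl
    | succ n ih =>
      intro i
      rw [pow_succ', Perm.mul_apply, ih, hp, pow_succ', Perm.mul_apply]
  have h5 : p ^ (2 ^ A) = 1 := by
    ext1 i
    have h6 := h4 (2 ^ A) i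
    rw [← pow_mul, mul_comm, pow_mul, hA, one_pow] at h6
    exact ((Prod.mk.inj h6).2).symm
  rcases perm3 p (perm3_two h5) with ⟨h6, h7⟩ | ⟨h6, i, h7, h8, h9⟩
  · left
    refine ⟨h1.trans h6, ?_⟩
    rintro ⟨w, i⟩ rfl
    rw [hp, h7]
  · right
    refine ⟨h1.trans h6, (v, i), (v, i + 1), (v, i + 2), rfl, rfl, rfl, ?_, ?_, ?_, ?_, ?_, ?_⟩
    · intro h
      have h' : i + 1 = i := (Prod.mk.inj h).2
      clear h h7 h8 h9
      revert h'
      revert i
      decide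
    · intro h
      have h' : i + 2 = i := (Prod.mk.inj h).2
      clear h h7 h8 h9
      revert h'
      revert i
      decide
    · intro h
      have h' : i + 1 = i + 2 := (Prod.mk.inj h).2
      clear h h7 h8 h9
      revert h'
      revert i
      decide
    · rw [hp, h7]
    · rw [hp, h8]
    · rw [hp, h9]

/-- The axis of a vertex of the second type. -/
def Ax (π : Perm (V × Fin 3)) (σ : Perm V) (h : V × Fin 3) : Prop :=
  (π ^ kk σ h.1) h = h ∧ oc π σ h.1 = -1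

omit [DecidableEq V] in
lemma Ax.get {π : Perm (V × Fin 3)} {σ : Perm V} (hπ : FP π σ) {A : ℕ} (hA : π ^ (2 ^ A) = 1)
    {h : V × Fin 3} (hh : Ax π σ h) : ∃ a b : V × Fin 3, a.1 = h.1 ∧ b.1 = h.1 ∧ a ≠ h ∧ b ≠ h ∧
      a ≠ b ∧ (π ^ kk σ h.1) a = b ∧ (π ^ kk σ h.1) b = a := by
  rcases types hπ hA h.1 with ⟨h1, -⟩ | ⟨h1, x, a, b, hx, ha, hb, hax, hbx, hab, kx, ka, kb⟩
  · rw [hh.2] at h1
    exact absurd h1 (by decide)
  · have h2 : h = x := by
      rcases three ha hb hax hbx hab hx.symm with h3 | h3 | h3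
      · exact h3
      · exfalso
        have h4 := hh.1
        rw [h3] at h4
        rw [h3] at ka
        exact hab (h4.symm.trans ka)
      · exfalso
        have h4 := hh.1
        rw [h3] at h4
        rw [h3] at kb
        exact hab (kb.symm.trans h4)
    rw [← h2] at ha hb hax hbx
    exact ⟨a, b, ha, hb, hax, hbx, hab, ka, kb⟩

omit [DecidableEq V] in
lemma Ax.uniq {π : Perm (V × Fin 3)} {σ : Perm V} (hπ : FP π σ) {A : ℕ} (hA : π ^ (2 ^ A) = 1)
    {h h' : V × Fin 3} (hh : Ax π σ h) (hh' : Ax π σ h') (he : h'.1 = h.1) : h' = h := by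
  obtain ⟨a, b, ha, hb, hax, hbx, hab, ka, kb⟩ := hh.get hπ hA
  have h4 := hh'.1
  rw [he] at h4
  rcases three ha hb hax hbx hab he with h3 | h3 | h3
  · exact h3
  · rw [h3, ka] at h4
    exact absurd h4.symm hab
  · rw [h3, kb] at h4
    exact absurd h4 hab

omit [DecidableEq V] in
lemma Ax.pow {π : Perm (V × Fin 3)} {σ : Perm V} (hπ : FP π σ) {h : V × Fin 3}
    (hh : Ax π σ h) (n : ℕ) : Ax π σ ((π ^ n) h) := by
  have h1 : ((π ^ n) h).1 = (σ ^ n) h.1 := (hπ.pow n) h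
  constructor
  · rw [h1, kk_pow, ← Perm.mul_apply, ← pow_add, add_comm, pow_add, Perm.mul_apply, hh.1]
  · rw [h1]
    exact (orbC_pow (fun v => lsg_sq hπ v) h.1 n).trans hh.2

omit [DecidableEq V] in
lemma Ax.exists {π : Perm (V × Fin 3)} {σ : Perm V} (hπ : FP π σ) {A : ℕ}
    (hA : π ^ (2 ^ A) = 1) {v : V} (hv : oc π σ v = -1) : ∃ h : V × Fin 3, h.1 = v ∧ Ax π σ h := by
  rcases types hπ hA v with ⟨h1, -⟩ | ⟨-, x, a, b, hx, -, -, -, -, -, kx, -, -⟩
  · rw [h1] at hv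
    exact absurd hv (by decide)
  · refine ⟨x, hx, ?_, ?_⟩
    · rw [hx, kx]
    · rw [hx, hv]

end Pool.Agent.helper16.GHS
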