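import Pool.Agent.helper16.GHS.Loc
import Pool.Agent.helper4.GHS.PAR
import Pool.Agent.helper4.GHS.ORB

/-!
# Weight systems vanish on the graphs with an automorphism of sign -1
-/

set_option autoImplicit false

namespace Pool.Agent.helper16.GHS

open Equiv Finset

variable {V : Type} [Fintype V] [DecidableEq V]
variable {B : Type} [AddCommGroup B] {F : Perm (V × Fin 3) → B}

omit [Fintype V] in
lemma ZZ_neg {π : Perm (V × Fin 3)} {σ : Perm V} (hπ : FP π σ) {a b c : V × Fin 3} {N : ℕ}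
    (hab : a ≠ b) (hac : a ≠ c) (hbc : b ≠ c) :
    ZZ (zs π a b c) N (fun _ => -1) = ZZ (zs π b a c) N fun _ => 1 := by
  unfold ZZ
  congr 2
  funext i
  show zs π a b c i ^ ((-1 : ℤˣ) : ℤ) = zs π b a c i ^ ((1 : ℤˣ) : ℤ)
  rw [Units.val_neg, Units.val_one, zpow_neg, zpow_one, zpow_one]
  exact cyc_inv3 (fun h => hab ((π ^ (i : ℕ)).injective h)) (fun h => hac ((π ^ (i : ℕ)).injective h))
    fun h => hbc ((π ^ (i : ℕ)).injective h)

theorem IsWS.analysis (hF : IsWS F) {m π : Perm (V × Fin 3)} {σ : Perm V}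
    (hm : Mat m) (hπ : FP π σ) (hc : cj π m = m) (he : eps π = -1) {A : ℕ}
    (hA : π ^ (2 ^ A) = 1) (hne : F m ≠ 0) : ∀ n, ∀ h : V × Fin 3, kk σ h.1 = n → Ax π σ h →
    Ax π σ (m h) ∧ kk σ (m h).1 = kk σ h.1 ∧ ∀ i : ℕ, (σ ^ i) h.1 ≠ (m h).1 := by
  have hσA : σ ^ (2 ^ A) = 1 := by
    ext1 v
    have h1 := (hπ.pow (2 ^ A)) (v, 0)
    rw [hA] at h1
    exact h1.symm
  have hdvd : ∀ v, kk σ v ∣ 2 ^ A := by
    intro v
    rw [← kk_dvd, hσA]
    rfl
  intro n
  induction n using Nat.strong_induction_on with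
  | _ n ih =>
  intro h hn hh
  obtain ⟨a, b, ha, hb, hax, hbx, hab, ka, kb⟩ := hh.get hπ hA
  have kpos := kk_pos σ h.1
  have ky : (π ^ kk σ h.1) (m h) = m h := by rw [← comm_pow hc, hh.1]
  have kw : kk σ (m h).1 ∣ kk σ h.1 := by
    rw [← kk_dvd, ← (hπ.pow _) (m h), ky]
  have hneh : m h ≠ h := hm.2 h
  rcases Nat.lt_or_eq_of_le (Nat.le_of_dvd kpos kw) with hlt | heq
  · -- smaller orbit
    exfalso
    set k0 := kk σ (m h).1 with hk0
    have k0pos : 0 < k0 := kk_pos σ (m h).1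
    have hny : (π ^ k0) (m h) ≠ m h := by
      intro h1
      have h2 : (π ^ k0) h = h := by
        have h3 := comm_pow hc k0 (m h)
        rw [h1, hm.1] at h3
        exact h3.symm
      have h3 : kk σ h.1 ∣ k0 := by rw [← kk_dvd, ← (hπ.pow _) h, h2]
      have h4 := Nat.le_of_dvd k0pos h3
      omega
    rcases types hπ hA (m h).1 with ⟨-, h1⟩ | ⟨h1, x0, a0, b0, hx0, ha0, hb0, hax0, hbx0, hab0,
      kx0, ka0, kb0⟩
    · exact hny (h1 _ rfl)
    rw [← hk0] at kx0 ka0 kb0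
    have hmh : m h = x0 ∨ m h = a0 ∨ m h = b0 := three ha0 hb0 hax0 hbx0 hab0 hx0.symm
    have hmh' : m h = a0 ∨ m h = b0 := by
      rcases hmh with h2 | h2
      · rw [h2] at hny
        exact absurd kx0 hny
      · exact h2
    have h2k : (π ^ (2 * k0)) (m h) = m h := by
      rw [two_mul, pow_add, Perm.mul_apply]
      rcases hmh' with h2 | h2
      · rw [h2, ka0, kb0]
      · rw [h2, kb0, ka0]
    have h2h : (π ^ (2 * k0)) h = h := by
      have h3 := comm_pow hc (2 * k0) (m h)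
      rw [h2k, hm.1] at h3
      exact h3.symm
    have hkk : kk σ h.1 = 2 * k0 := by
      have h3 : kk σ h.1 ∣ 2 * k0 := by rw [← kk_dvd, ← (hπ.pow _) h, h2h]
      obtain ⟨q, hq⟩ := kw
      rw [hq] at h3 hlt ⊢
      have h4 : q ∣ 2 := by
        rw [mul_comm 2] at h3
        exact Nat.dvd_of_mul_dvd_mul_left k0pos h3
      have h5 : q ≤ 2 := Nat.le_of_dvd (by norm_num) h4
      have h6 : q ≠ 0 := by
        rintro rfl
        omega
      have h7 : q ≠ 1 := by
        rintro rfl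
        omega
      have h8 : q = 2 := by omega
      rw [h8, mul_comm]
    have hAx0 : Ax π σ x0 := by
      constructor
      · rw [hx0]
        exact kx0
      · rw [hx0]
        exact h1
    have hkx0 : kk σ x0.1 = k0 := by rw [hx0]
    obtain ⟨i1, i2, i3⟩ := ih k0 (by omega) x0 hkx0 hAx0
    rw [hkx0] at i2
    obtain ⟨c0, d0, hc0, hd0, hcy0, hdy0, hcd0, kc0, kd0⟩ := i1.get hπ hA
    rw [i2] at kc0 kd0
    have hX : HX x0 (m x0) a0 b0 c0 d0 :=
      ⟨ha0, hb0, hax0, hbx0, hab0, hc0, hd0, hcy0, hdy0, hcd0, i3 0⟩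
    obtain ⟨K, hKK⟩ : ∃ K, k0 = K + 1 := ⟨k0 - 1, by omega⟩
    clear_value k0
    subst hKK
    have xx : ∀ i < K + 1, ∀ j < K + 1, ((π ^ i) x0).1 = ((π ^ j) x0).1 → i = j := by
      intro i hi j hj h2
      rw [(hπ.pow i) x0, (hπ.pow j) x0] at h2
      exact kk_dist σ x0.1 i (by rw [hkx0]; exact hi) j (by rw [hkx0]; exact hj) h2
    have yy : ∀ i < K + 1, ∀ j < K + 1, ((π ^ i) (m x0)).1 = ((π ^ j) (m x0)).1 → i = j := by
      intro i hi j hj h2
      rw [(hπ.pow i) (m x0), (hπ.pow j) (m x0)] at h2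
      exact kk_dist σ (m x0).1 i (by rw [i2]; exact hi) j (by rw [i2]; exact hj) h2
    have xy : ∀ i < K + 1, ∀ j < K + 1, ((π ^ i) x0).1 ≠ ((π ^ j) (m x0)).1 := by
      intro i hi j hj h2
      rw [(hπ.pow i) x0, (hπ.pow j) (m x0)] at h2
      apply i3 (K + 1 - j + i)
      rw [pow_add, Perm.mul_apply, h2, ← Perm.mul_apply, ← pow_add,
        Nat.sub_add_cancel (by omega), kk_dvd, i2]
    have hO : OD m π K x0 a0 b0 c0 :=
      ⟨ha0, hb0, hax0, hbx0, hab0, hc0, hcy0, xx, yy, xy⟩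
    have hO' : OD m π K x0 b0 a0 c0 :=
      ⟨hb0, ha0, hbx0, hax0, hab0.symm, hc0, hcy0, xx, yy, xy⟩
    have hX' : HX x0 (m x0) b0 a0 c0 d0 :=
      ⟨hb0, ha0, hbx0, hax0, hab0.symm, hc0, hd0, hcy0, hdy0, hcd0, i3 0⟩
    have ky0 : (π ^ (K + 1)) (m x0) = m x0 := by rw [← comm_pow hc, kx0]
    obtain ⟨j, -, hj⟩ := (Nat.dvd_prime_pow Nat.prime_two).mp (hdvd x0.1)
    rw [hkx0] at hj
    have h11 : ∀ i < 2 * (K + 1), ∀ j < 2 * (K + 1), (σ ^ i) h.1 = (σ ^ j) h.1 → i = j := by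
      rw [← hkk]
      exact kk_dist σ h.1
    have dd : ∀ w : V, kk σ w = K + 1 → ∀ i j : ℕ, (σ ^ i) h.1 ≠ (σ ^ j) w := by
      intro w hw i j h2
      have h3 := kk_pow σ h.1 i
      rw [h2, kk_pow, hw] at h3
      omega
    have hP := hF.P1 ORB hm hπ hc he K j hj hX rfl hO ka0 kb0 kc0
    rw [ZZ_neg hπ hab0 hX.d6.ac hX.d6.bc] at hP
    have c1 := hF.C hm hπ hc he K hX rfl hO kx0 ky0 ka0 kb0 kc0 kd0 ha hb hax hbx hab hmh' h11
      (by rw [← hkk]; exact ka) (by rw [← hkk]; exact kb) (dd x0.1 hkx0) (dd (m x0).1 i2)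
    have c2 := hF.C hm hπ hc he K hX' rfl hO' kx0 ky0 kb0 ka0 kc0 kd0 ha hb hax hbx hab
      hmh'.symm h11
      (by rw [← hkk]; exact ka) (by rw [← hkk]; exact kb) (dd x0.1 hkx0) (dd (m x0).1 i2)
    rw [c1, c2, add_zero, smul_zero] at hP
    exact hne hP
  · -- equal orbits
    have kd := kk_dist σ h.1
    have kd' := kk_dist σ (m h).1
    rw [heq] at kd'
    obtain ⟨K, hK⟩ : ∃ K, kk σ h.1 = K + 1 := ⟨kk σ h.1 - 1, by omega⟩
    rcases types hπ hA (m h).1 with ⟨h1, h2⟩ | ⟨h1, -⟩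
    · -- first type
      exfalso
      rw [heq] at h2
      rw [hK] at kd kd' h2 ka kb
      apply hne
      have hO : OD m π K h a b (nx (m h)) := by
        refine ⟨ha, hb, hax, hbx, hab, rfl, nx_ne _, ?_, ?_, ?_⟩
        · intro i hi j hj h3
          rw [(hπ.pow i) h, (hπ.pow j) h] at h3
          exact kd i hi j hj h3
        · intro i hi j hj h3
          rw [(hπ.pow i) (m h), (hπ.pow j) (m h)] at h3
          exact kd' i hi j hj h3
        · intro i hi j hj h3
          rw [(hπ.pow i) h, (hπ.pow j) (m h)] at h3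
          have h4 : oc π σ ((σ ^ i) h.1) = oc π σ h.1 := orbC_pow (fun v => lsg_sq hπ v) h.1 i
          have h4' : oc π σ ((σ ^ j) (m h).1) = oc π σ (m h).1 :=
            orbC_pow (fun v => lsg_sq hπ v) (m h).1 j
          have h5 : oc π σ (m h).1 = oc π σ h.1 := by rw [← h4', ← h4, h3]
          rw [h1, hh.2] at h5
          exact absurd h5 (by decide)
      exact hF.T1 hm hπ hc he K hO ka kb (h2 _ rfl)
    · -- second type
      have hAy : Ax π σ (m h) := ⟨by rw [heq]; exact ky, h1⟩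
      refine ⟨hAy, heq, ?_⟩
      intro i0 hi0
      apply hne
      obtain ⟨i, hi, hi1⟩ : ∃ i, i < kk σ h.1 ∧ (σ ^ i) h.1 = (m h).1 :=
        ⟨i0 % kk σ h.1, Nat.mod_lt _ kpos, by rw [kk_mod]; exact hi0⟩
      have hi0 : i ≠ 0 := by
        rintro rfl
        exact hneh (hAy.uniq hπ hA hh hi1).symm
      have e1 : (π ^ i) h = m h := by
        refine hAy.uniq hπ hA (hh.pow hπ i) ?_
        rw [(hπ.pow i) h]
        exact hi1
      have e2 : (π ^ (2 * i)) h = h := by
        rw [two_mul, pow_add, Perm.mul_apply, e1, ← comm_pow hc, e1, hm.1]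
      have e3 : kk σ h.1 ∣ 2 * i := by rw [← kk_dvd, ← (hπ.pow _) h, e2]
      have e4 : kk σ h.1 = 2 * i := by
        obtain ⟨q, hq⟩ := e3
        have h3 : q ≠ 0 := by
          rintro rfl
          omega
        have h4 : q < 2 := by
          by_contra h5
          have h6 : 2 ≤ q := by omega
          have h7 : kk σ h.1 * 2 ≤ kk σ h.1 * q := Nat.mul_le_mul_left _ h6
          omega
        have h8 : q = 1 := by omega
        rw [h8, mul_one] at hq
        exact hq.symm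
      obtain ⟨I, rfl⟩ : ∃ I, i = I + 1 := ⟨i - 1, by omega⟩
      rw [e4] at kd ka kb
      have sy : ∀ j : ℕ, (σ ^ j) (m h).1 = (σ ^ (j + (I + 1))) h.1 := by
        intro j
        rw [pow_add, Perm.mul_apply, hi1]
      have hX : HX h (m h) a b ((π ^ (I + 1)) a) ((π ^ (I + 1)) b) := by
        refine ⟨ha, hb, hax, hbx, hab, ?_, ?_, ?_, ?_, ?_, ?_⟩
        · rw [(hπ.pow (I + 1)) a, ha, hi1]
        · rw [(hπ.pow (I + 1)) b, hb, hi1]
        · rw [← e1]
          exact fun h3 => hax ((π ^ (I + 1)).injective h3)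
        · rw [← e1]
          exact fun h3 => hbx ((π ^ (I + 1)).injective h3)
        · exact fun h3 => hab ((π ^ (I + 1)).injective h3)
        · intro h3
          have h4 := kd 0 (by omega) (I + 1) (by omega) (h3.trans hi1.symm)
          omega
      have hO : OD m π I h a b ((π ^ (I + 1)) a) := by
        refine ⟨ha, hb, hax, hbx, hab, hX.hc, hX.hcy, ?_, ?_, ?_⟩
        · intro i hi j hj h3
          rw [(hπ.pow i) h, (hπ.pow j) h] at h3
          exact kd i (by omega) j (by omega) h3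
        · intro i hi j hj h3
          rw [(hπ.pow i) (m h), (hπ.pow j) (m h), sy, sy] at h3
          have h4 := kd (i + (I + 1)) (by omega) (j + (I + 1)) (by omega) h3
          omega
        · intro i hi j hj h3
          rw [(hπ.pow i) h, (hπ.pow j) (m h), sy] at h3
          have h4 := kd i (by omega) (j + (I + 1)) (by omega) h3
          omega
      refine hF.T2 hm hπ hc he I hX rfl hO rfl rfl ?_
      rw [← Perm.mul_apply, ← pow_add, ← two_mul]
      exact ka

/-- The case of 2-power order. -/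
theorem IsWS.main2 (hF : IsWS F) {m π : Perm (V × Fin 3)} {σ : Perm V}
    (hm : Mat m) (hπ : FP π σ) (hc : cj π m = m) (he : eps π = -1) {A : ℕ}
    (hA : π ^ (2 ^ A) = 1) : F m = 0 := by
  by_contra hne
  have hmain := hF.analysis hm hπ hc he hA hne
  have hex : ∀ v, oc π σ v = -1 → ∃ h : V × Fin 3, h.1 = v ∧ Ax π σ h :=
    fun v hv => Ax.exists hπ hA hv
  choose! ax hax1 hax2 using hex
  have hpar := PAR V σ (lsg π) (fun v => (m (ax v)).1) (fun v => ?_) fun v hv => ?_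
  · rw [← eps_eq, he] at hpar
    exact absurd hpar (by decide)
  · rcases types hπ hA v with ⟨h1, -⟩ | ⟨h1, -⟩
    · exact Or.inl h1
    · exact Or.inr h1
  · obtain ⟨h1, -, h3⟩ := hmain _ (ax v) rfl (hax2 v hv)
    have hw : oc π σ (m (ax v)).1 = -1 := h1.2
    have e1 : ax (m (ax v)).1 = m (ax v) :=
      h1.uniq hπ hA (hax2 _ hw) (hax1 _ hw)
    have hσv : oc π σ (σ v) = -1 := (orbC_apply (fun v => lsg_sq hπ v) v).trans hv
    have e2 : ax (σ v) = π (ax v) := by
      have h4 := (hax2 v hv).pow hπ 1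
      rw [pow_one] at h4
      refine h4.uniq hπ hA (hax2 _ hσv) ?_
      rw [hax1 _ hσv, hπ, hax1 v hv]
    refine ⟨hw, ?_, ?_, ?_⟩
    · show (m (ax (m (ax v)).1)).1 = v
      rw [e1, hm.1, hax1 v hv]
    · show (m (ax (σ v))).1 = σ (m (ax v)).1
      have h4 := comm_pow hc 1 (ax v)
      rw [pow_one] at h4
      rw [e2, h4, hπ]
    · intro i h4
      apply h3 i
      rw [hax1 v hv]
      exact h4

/-- MAIN THEOREM for weight systems. -/
theorem IsWS.main (hF : IsWS F) {m π : Perm (V × Fin 3)} {σ : Perm V}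
    (hm : Mat m) (hπ : FP π σ) (hc : cj π m = m) (he : eps π = -1) : F m = 0 := by
  obtain ⟨A, q, hq, hAq⟩ := Nat.exists_eq_two_pow_mul_odd (n := orderOf π)
    (orderOf_pos π).ne'
  have h1 : (π ^ q) ^ (2 ^ A) = 1 := by
    rw [← pow_mul, mul_comm, ← hAq, pow_orderOf_eq_one]
  have h2 : eps (π ^ q) = -1 := by rw [eps_pow hπ, he, hq.neg_one_pow]
  have h3 : cj (π ^ q) m = m := by
    clear h1 h2 hAq hq
    induction q with
    | zero => exact cj_one m
    | succ n ih => rw [pow_succ, cj_mul, hc, ih]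
  exact hF.main2 hm (hπ.pow q) h3 h2 h1

end Pool.Agent.helper16.GHS
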