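import Mathlib

/-!
# MP_bf3f21_gt (project ghs): two auxiliary statements on permutations
-/

set_option autoImplicit false

namespace Pool.Agent.helper16.GHS

open Equiv Finset

/-- ORB (short-medium). A function which changes sign under `P` has sum zero over an invariant finite set
all of whose orbits have even length. Proof: strong induction on the cardinality of `S`: take `x ∈ S`,
`n = minimalPeriod P x > 0` (`S` is finite and invariant), the orbit is the image of `range n` under
`i ↦ P^[i] x` (injective on `range n`), its sum is `∑_{i<n} (-1)^i f x = 0` since `n` is even; remove it. -/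
def ORB_stmt : Prop :=
  ∀ (X B : Type) [DecidableEq X] [AddCommGroup B] (P : Perm X) (f : X → B) (S : Finset X),
    (∀ x, f (P x) = - f x) → (∀ x, P x ∈ S ↔ x ∈ S) →
    (∀ x ∈ S, Even (Function.minimalPeriod P x)) → ∑ x ∈ S, f x = 0

/-- The product of `c` over the orbit of `v`. -/
noncomputable def orbC {V : Type} (σ : Perm V) (c : V → ℤ) (v : V) : ℤ :=
  ∏ i ∈ range (Function.minimalPeriod σ v), c ((σ ^ i) v)

/-- PAR (short-medium). If `w` pairs the orbits with orbit product `-1` (without fixed orbits), then the
product over all points is 1. Proof: strong induction on an invariant finite set `S` (closed under `σ`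
and under `w` on the points with orbit product -1): take `v ∈ S`; if `orbC v = 1` remove the orbit of `v`;
if `orbC v = -1` remove the two disjoint orbits of `v` and `w v`, with product `(-1) (-1) = 1`. (The product of
`c` over the orbit of `v` is `orbC v`; `orbC` is constant on orbits: reindex, or use that it is the product
over the orbit as a finset.) Or with `Finset.prod_fiberwise` and `Finset.prod_involution` on the quotient. -/
def PAR_stmt : Prop :=
  ∀ (V : Type) [Fintype V] [DecidableEq V] (σ : Perm V) (c : V → ℤ) (w : V → V),
    (∀ v, orbC σ c v = 1 ∨ orbC σ c v = -1) →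
    (∀ v, orbC σ c v = -1 → orbC σ c (w v) = -1 ∧ w (w v) = v ∧ w (σ v) = σ (w v) ∧
      ∀ i : ℕ, (σ ^ i) v ≠ w v) →
    ∏ v, c v = 1

end Pool.Agent.helper16.GHS
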