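import Pool.Agent.helper16.GHS.WS
import Pool.Agent.helper16.GHS.Spec

/-!
# The action of an automorphism on the terms of the simultaneous IHX relation
-/

set_option autoImplicit false

namespace Pool.Agent.helper16.GHS

open Equiv Finset

/-! ### Rotation of sign vectors -/

/-- The shift of sign vectors, with a twist `t`. -/
def rot (K : ℕ) (t : ℤˣ) : Perm (Fin (K + 1) → ℤˣ) where
  toFun s := Fin.cons (α := fun _ => ℤˣ) (t * s (Fin.last K)) fun i => s i.castSucc
  invFun s := Fin.snoc (α := fun _ => ℤˣ) (fun i => s i.succ) (t * s 0)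
  left_inv s := by
    funext i
    refine Fin.lastCases ?_ (fun j => ?_) i
    · dsimp only
      rw [Fin.snoc_last, Fin.cons_zero, ← mul_assoc, Int.units_mul_self, one_mul]
    · dsimp only
      rw [Fin.snoc_castSucc, Fin.cons_succ]
  right_inv s := by
    funext i
    refine Fin.cases ?_ (fun j => ?_) i
    · dsimp only
      rw [Fin.cons_zero, Fin.snoc_last, ← mul_assoc, Int.units_mul_self, one_mul]
    · dsimp only
      rw [Fin.cons_succ, Fin.snoc_castSucc]

lemma rot_apply (K : ℕ) (t : ℤˣ) (s : Fin (K + 1) → ℤˣ) :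
    rot K t s = Fin.cons (α := fun _ => ℤˣ) (t * s (Fin.last K)) fun i => s i.castSucc := rfl

lemma rot_prod (K : ℕ) (t : ℤˣ) (s : Fin (K + 1) → ℤˣ) : ∏ i, rot K t s i = t * ∏ i, s i := by
  rw [rot_apply, Fin.prod_univ_succ, Fin.cons_zero, Fin.prod_univ_castSucc]
  simp only [Fin.cons_succ]
  rw [mul_assoc]
  congr 1
  rw [mul_comm]

/-- A function which changes sign under the twisted shift has sum zero. -/
lemma sum_twist {B : Type} [AddCommGroup B] (K : ℕ) (f : (Fin (K + 1) → ℤˣ) → B)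
    (hf : ∀ s, f (rot K (-1) s) = - f s) : ∑ s, f s = 0 := by
  rw [← Finset.sum_filter_add_sum_filter_not univ (fun s : Fin (K + 1) → ℤˣ => ∏ i, s i = 1) f]
  have h : ∑ s with ¬ (∏ i, s i = 1), f s = ∑ s with ∏ i, s i = 1, f (rot K (-1) s) := by
    symm
    refine Finset.sum_equiv (rot K (-1)) (fun s => ?_) fun s _ => rfl
    rw [Finset.mem_filter, Finset.mem_filter, rot_prod]
    simp only [Finset.mem_univ, true_and]
    rcases Int.units_eq_one_or (∏ i, s i) with h1 | h1 <;> rw [h1] <;> decide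
  rw [h]
  simp only [hf]
  rw [Finset.sum_neg_distrib, add_neg_cancel]

lemma rot_one_apply (K : ℕ) (s : Fin (K + 1) → ℤˣ) (i : Fin (K + 1)) :
    rot K 1 s i = s (i - 1) := by
  rw [rot_apply]
  refine Fin.cases ?_ (fun j => ?_) i
  · rw [Fin.cons_zero, one_mul]
    congr 1
    rw [eq_sub_iff_add_eq, Fin.last_add_one]
  · rw [Fin.cons_succ]
    congr 1
    rw [eq_sub_iff_add_eq, Fin.coeSucc_eq_succ]

lemma rot_iter (K : ℕ) (s : Fin (K + 1) → ℤˣ) (n : ℕ) (i : Fin (K + 1)) :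
    (rot K 1)^[n] s i = s (i - n • 1) := by
  induction n generalizing i with
  | zero => rw [Function.iterate_zero, id, zero_smul, sub_zero]
  | succ n ih =>
    rw [Function.iterate_succ_apply', rot_one_apply, ih, succ_nsmul, sub_sub,
      add_comm (1 : Fin (K + 1))]

lemma rot_period (K : ℕ) (s : Fin (K + 1) → ℤˣ) : (rot K 1)^[K + 1] s = s := by
  funext i
  have h := card_nsmul_eq_zero (x := (1 : Fin (K + 1)))
  rw [Fintype.card_fin] at h
  rw [rot_iter, h, sub_zero]

lemma rot_fixed (K : ℕ) (s : Fin (K + 1) → ℤˣ) (h : rot K 1 s = s) (i : Fin (K + 1)) :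
    s i = s 0 := by
  refine Fin.induction rfl (fun j ih => ?_) i
  rw [← ih]
  have h1 := congrFun h j.succ
  rw [rot_apply, Fin.cons_succ] at h1
  exact h1.symm

/-- A function which changes sign under the plain shift (of 2-power length). -/
lemma sum_plain (hORB : ORB_stmt) {B : Type} [AddCommGroup B] (K j : ℕ) (hK : K + 1 = 2 ^ j)
    (f : (Fin (K + 1) → ℤˣ) → B) (hf : ∀ s, f (rot K 1 s) = - f s) :
    ∑ s, f s = f (fun _ => 1) + f (fun _ => -1) := by
  have h1 : ∑ s with ¬ (∀ i, s i = s 0), f s = 0 := by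
    refine hORB _ B (rot K 1) f _ hf (fun s => ?_) fun s hs => ?_
    · rw [Finset.mem_filter, Finset.mem_filter]
      simp only [Finset.mem_univ, true_and]
      rw [not_iff_not]
      constructor
      · intro h
        have h2 : ∀ i, s i = s (Fin.last K) := by
          intro i
          have h3 := h (i + 1)
          rw [rot_one_apply, rot_one_apply, add_sub_cancel_right] at h3
          rw [h3]
          congr 1
          rw [sub_eq_iff_eq_add, Fin.last_add_one]
        intro i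
        rw [h2 i, h2 0]
      · intro h i
        rw [rot_one_apply, rot_one_apply, h (i - 1), h (0 - 1)]
    · rw [Finset.mem_filter] at hs
      have hd : Function.minimalPeriod (rot K 1) s ∣ 2 ^ j := by
        rw [← hK]
        exact Function.IsPeriodicPt.minimalPeriod_dvd (rot_period K s)
      obtain ⟨i, -, hi⟩ := (Nat.dvd_prime_pow Nat.prime_two).mp hd
      rw [hi]
      rcases Nat.eq_zero_or_pos i with rfl | hpos
      · exfalso
        apply hs.2
        rw [pow_zero] at hi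
        have h2 := Function.isPeriodicPt_minimalPeriod (rot K 1) s
        rw [hi] at h2
        exact rot_fixed K s h2
      · exact (Nat.even_pow.mpr ⟨even_two, by omega⟩)
  rw [← Finset.sum_filter_add_sum_filter_not univ
    (fun s : Fin (K + 1) → ℤˣ => ∀ i, s i = s 0) f, h1, add_zero]
  have h2 : (univ.filter fun s : Fin (K + 1) → ℤˣ => ∀ i, s i = s 0) =
      {(fun _ => 1), fun _ => -1} := by
    ext s
    rw [Finset.mem_filter, Finset.mem_insert, Finset.mem_singleton]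
    constructor
    · rintro ⟨-, h⟩
      rcases Int.units_eq_one_or (s 0) with h0 | h0
      · left
        funext i
        rw [h i, h0]
      · right
        funext i
        rw [h i, h0]
    · rintro (rfl | rfl) <;> exact ⟨Finset.mem_univ _, fun _ => rfl⟩
  rw [h2, Finset.sum_pair]
  intro h
  have h3 := congrFun h 0
  revert h3
  decide

/-! ### The shift of the product of 3-cycles -/

section shift

variable {V : Type} [Fintype V] [DecidableEq V]
variable {B : Type} [AddCommGroup B] {F : Perm (V × Fin 3) → B}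

/-- The orbit of the 3-cycle. -/
def zs (π : Perm (V × Fin 3)) (a b c : V × Fin 3) (i : ℕ) : Perm (V × Fin 3) :=
  cyc ((π ^ i) a) ((π ^ i) b) ((π ^ i) c)

omit [Fintype V] in
lemma zs_succ (π : Perm (V × Fin 3)) (a b c : V × Fin 3) (i : ℕ) :
    π * zs π a b c i * π⁻¹ = zs π a b c (i + 1) := by
  unfold zs
  rw [conj_cyc, pow_succ']
  rfl

omit [Fintype V] in
lemma zs_conj (π : Perm (V × Fin 3)) (a b c : V × Fin 3) (K : ℕ) (s : Fin K → ℤˣ) :
    π * ZZ (zs π a b c) K s * π⁻¹ = ZZ (fun i => zs π a b c (i + 1)) K s := by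
  unfold ZZ
  have h := map_list_prod (MulAut.conj π)
    (List.ofFn fun i : Fin K => zs π a b c i ^ ((s i : ℤˣ) : ℤ))
  rw [MulAut.conj_apply] at h
  rw [h, List.map_ofFn]
  congr 2
  funext i
  show π * zs π a b c i ^ ((s i : ℤˣ) : ℤ) * π⁻¹ = _
  rw [← conj_zpow, zs_succ]

theorem IsWS.shift (hF : IsWS F) {m π : Perm (V × Fin 3)} {σ : Perm V} (hm : Mat m)
    (hπ : FP π σ) (hc : cj π m = m) (K : ℕ) (a b c : V × Fin 3) (t : ℤˣ)
    (hcomm : ∀ i, 1 ≤ i → i < K + 1 → Commute (zs π a b c (K + 1)) (zs π a b c i))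
    (hk : ∀ e : ℤˣ, ∃ (g q : Perm (V × Fin 3)) (τ : Perm V), FP g τ ∧ eps g = 1 ∧ cj q m = m ∧
      (∀ i, 1 ≤ i → i < K + 1 → Commute q (zs π a b c i)) ∧
      zs π a b c (K + 1) ^ (e : ℤ) = g * zs π a b c 0 ^ ((t * e : ℤˣ) : ℤ) * q)
    (s : Fin (K + 1) → ℤˣ) :
    F (cj (ZZ (zs π a b c) (K + 1) (rot K t s)) m) =
      eps π • F (cj (ZZ (zs π a b c) (K + 1) s) m) := by
  set z := zs π a b c with hz
  obtain ⟨g, q, τ, hg, hg1, hqm, hqz, hgq⟩ := hk (s (Fin.last K))
  set R : Perm (V × Fin 3) := (List.ofFn fun i : Fin K => z (i + 1) ^ ((s i.castSucc : ℤˣ) : ℤ)).prod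
    with hR
  have h1 : ZZ z (K + 1) (rot K t s) = z 0 ^ ((t * s (Fin.last K) : ℤˣ) : ℤ) * R := by
    unfold ZZ
    rw [List.ofFn_succ, List.prod_cons, rot_apply]
    rfl
  have h2 : ZZ (fun i => z (i + 1)) (K + 1) s = R * z (K + 1) ^ ((s (Fin.last K) : ℤˣ) : ℤ) := by
    unfold ZZ
    rw [List.ofFn_succ', List.prod_concat]
    rfl
  have h3 : Commute (z (K + 1) ^ ((s (Fin.last K) : ℤˣ) : ℤ)) R := by
    refine Commute.zpow_left ?_ _
    refine Commute.list_prod_right _ _ fun y hy => ?_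
    obtain ⟨i, rfl⟩ := (List.mem_ofFn' _ _).mp hy
    exact (hcomm (i + 1) (by omega) (by omega)).zpow_right _
  have h4 : Commute q R := by
    refine Commute.list_prod_right _ _ fun y hy => ?_
    obtain ⟨i, rfl⟩ := (List.mem_ofFn' _ _).mp hy
    exact (hqz (i + 1) (by omega) (by omega)).zpow_right _
  have h5 : π * ZZ z (K + 1) s = ZZ (fun i => z (i + 1)) (K + 1) s * π := by
    rw [← zs_conj, inv_mul_cancel_right]
  have h6 : g * z 0 ^ ((t * s (Fin.last K) : ℤˣ) : ℤ) * q * R =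
      g * (z 0 ^ ((t * s (Fin.last K) : ℤˣ) : ℤ) * R * q) := by
    rw [mul_assoc (g * _), h4.eq]
    simp only [mul_assoc]
  rw [← hF.f1 π σ hπ _ (hm.cj _), ← cj_mul, h5, cj_mul, hc, h2, ← h3.eq, hgq, h1, h6,
    cj_mul g, cj_mul _ q, hqm, hF.f1 g τ hg _ (hm.cj _), hg1, one_smul]

/-- The data of `K + 1` disjoint edges in the orbit of the edge `x, m x`. -/
structure OD (m π : Perm (V × Fin 3)) (K : ℕ) (x a b c : V × Fin 3) : Prop where
  ha : a.1 = x.1
  hb : b.1 = x.1
  hax : a ≠ x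
  hbx : b ≠ x
  hab : a ≠ b
  hc : c.1 = (m x).1
  hcx : c ≠ m x
  xx : ∀ i < K + 1, ∀ j < K + 1, ((π ^ i) x).1 = ((π ^ j) x).1 → i = j
  yy : ∀ i < K + 1, ∀ j < K + 1, ((π ^ i) (m x)).1 = ((π ^ j) (m x)).1 → i = j
  xy : ∀ i < K + 1, ∀ j < K + 1, ((π ^ i) x).1 ≠ ((π ^ j) (m x)).1

omit [Fintype V] [DecidableEq V] in
lemma comm_pow {m π : Perm (V × Fin 3)} (hc : cj π m = m) (i : ℕ) (h : V × Fin 3) :
    m ((π ^ i) h) = (π ^ i) (m h) := by
  have h1 : Commute π m := by
    have h2 : π * m * π⁻¹ = m := hc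
    rw [mul_inv_eq_iff_eq_mul] at h2
    exact h2
  have h3 := (h1.pow_left i).eq
  exact (DFunLike.congr_fun h3 h).symm

omit [Fintype V] [DecidableEq V] in
lemma FP_fst {π : Perm (V × Fin 3)} {σ : Perm V} (hπ : FP π σ) {h h' : V × Fin 3}
    (hh : h.1 = h'.1) : (π h).1 = (π h').1 := by
  rw [hπ, hπ, hh]

omit [Fintype V] [DecidableEq V] in
lemma OD.toED {m π : Perm (V × Fin 3)} {σ : Perm V} (hπ : FP π σ) (hc : cj π m = m) {K : ℕ}
    {x a b c : V × Fin 3} (h : OD m π K x a b c) :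
    ED m (K + 1) (fun i => (π ^ i) x) (fun i => (π ^ i) a) (fun i => (π ^ i) b)
      (fun i => (π ^ i) c) := by
  constructor
  · exact fun i _ => FP_fst (hπ.pow i) h.ha
  · exact fun i _ => FP_fst (hπ.pow i) h.hb
  · exact fun i _ h1 => h.hax ((π ^ i).injective h1)
  · exact fun i _ h1 => h.hbx ((π ^ i).injective h1)
  · exact fun i _ h1 => h.hab ((π ^ i).injective h1)
  · intro i _
    rw [comm_pow hc]
    exact FP_fst (hπ.pow i) h.hc
  · intro i _ h1
    rw [comm_pow hc] at h1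
    exact h.hcx ((π ^ i).injective h1)
  · exact h.xx
  · intro i hi j hj h1
    rw [comm_pow hc, comm_pow hc] at h1
    exact h.yy i hi j hj h1
  · intro i hi j hj
    rw [comm_pow hc]
    exact h.xy i hi j hj

/-- Lemma T: the twisted case. -/
theorem IsWS.twist (hF : IsWS F) {m π : Perm (V × Fin 3)} {σ : Perm V} (hm : Mat m)
    (hπ : FP π σ) (hc : cj π m = m) (he : eps π = -1) (K : ℕ) (x a b c : V × Fin 3)
    (hO : OD m π K x a b c)
    (hcomm : ∀ i, 1 ≤ i → i < K + 1 → Commute (zs π a b c (K + 1)) (zs π a b c i))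
    (hk : ∀ e : ℤˣ, ∃ (g q : Perm (V × Fin 3)) (τ : Perm V), FP g τ ∧ eps g = 1 ∧ cj q m = m ∧
      (∀ i, 1 ≤ i → i < K + 1 → Commute q (zs π a b c i)) ∧
      zs π a b c (K + 1) ^ (e : ℤ) = g * zs π a b c 0 ^ ((-1 * e : ℤˣ) : ℤ) * q) :
    F m = 0 := by
  rw [hF.multi (K + 1) hm (hO.toED hπ hc)]
  have h := sum_twist K (fun s => F (cj (ZZ (zs π a b c) (K + 1) s) m)) fun s => by
    rw [hF.shift hm hπ hc K a b c (-1) hcomm hk, he, neg_smul, one_smul]
  exact (congrArg _ h).trans (smul_zero _)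

/-- Lemma P: the plain case. -/
theorem IsWS.plain (hORB : ORB_stmt) (hF : IsWS F) {m π : Perm (V × Fin 3)} {σ : Perm V}
    (hm : Mat m) (hπ : FP π σ) (hc : cj π m = m) (he : eps π = -1) (K n : ℕ) (hK : K + 1 = 2 ^ n)
    (x a b c : V × Fin 3) (hO : OD m π K x a b c)
    (hcomm : ∀ i, 1 ≤ i → i < K + 1 → Commute (zs π a b c (K + 1)) (zs π a b c i))
    (hk : ∀ e : ℤˣ, ∃ (g q : Perm (V × Fin 3)) (τ : Perm V), FP g τ ∧ eps g = 1 ∧ cj q m = m ∧
      (∀ i, 1 ≤ i → i < K + 1 → Commute q (zs π a b c i)) ∧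
      zs π a b c (K + 1) ^ (e : ℤ) = g * zs π a b c 0 ^ ((1 * e : ℤˣ) : ℤ) * q) :
    F m = (-1 : ℤ) ^ (K + 1) • (F (cj (ZZ (zs π a b c) (K + 1) fun _ => 1) m) +
      F (cj (ZZ (zs π a b c) (K + 1) fun _ => -1) m)) := by
  rw [hF.multi (K + 1) hm (hO.toED hπ hc)]
  have h := sum_plain hORB K n hK (fun s => F (cj (ZZ (zs π a b c) (K + 1) s) m)) fun s => by
    rw [hF.shift hm hπ hc K a b c 1 hcomm hk, he, neg_smul, one_smul]
  exact congrArg _ h

end shift

end Pool.Agent.helper16.GHS
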