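import Pool.Agent.helper16.GHS.Basic

/-!
# Weight systems and simultaneous IHX
-/

set_option autoImplicit false

namespace Pool.Agent.helper16.GHS

open Equiv Finset

/-- Fixed point free involutions. -/
def Mat {H : Type} (m : Perm H) : Prop := (∀ h, m (m h) = h) ∧ ∀ h, m h ≠ h

/-- Conjugation. -/
def cj {H : Type} (g m : Perm H) : Perm H := g * m * g⁻¹

section cj

variable {H : Type}

lemma cj_one (m : Perm H) : cj 1 m = m := by
  unfold cj
  rw [one_mul, inv_one, mul_one]

lemma cj_mul (g g' m : Perm H) : cj (g * g') m = cj g (cj g' m) := by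
  unfold cj
  group

lemma cj_apply (g m : Perm H) (x : H) : cj g m x = g (m (g⁻¹ x)) := rfl

lemma Mat.cj {m : Perm H} (hm : Mat m) (g : Perm H) : Mat (cj g m) := by
  constructor
  · intro h
    rw [cj_apply, cj_apply, pis, hm.1, psi]
  · intro h h1
    rw [cj_apply] at h1
    have h2 : m (g⁻¹ h) = g⁻¹ h := by
      have h3 := congrArg (⇑(g⁻¹)) h1
      rwa [pis] at h3
    exact hm.2 _ h2

end cj

variable {V : Type} [Fintype V] [DecidableEq V]

/-- The next half-edge in the cyclic order. -/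
def nx (h : V × Fin 3) : V × Fin 3 := (h.1, h.2 + 1)

omit [Fintype V] [DecidableEq V] in
lemma nx_nx_nx (h : V × Fin 3) : nx (nx (nx h)) = h := by
  obtain ⟨v, i⟩ := h
  unfold nx
  have : i + 1 + 1 + 1 = i := by
    revert i
    decide
  simp only [this]

omit [Fintype V] [DecidableEq V] in
lemma nx_ne (h : V × Fin 3) : nx h ≠ h := by
  obtain ⟨v, i⟩ := h
  intro h1
  have h2 : i + 1 = i := (Prod.mk.inj h1).2
  clear h1
  revert h2
  revert i
  decide

omit [Fintype V] [DecidableEq V] in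
lemma nx_nx_ne (h : V × Fin 3) : nx (nx h) ≠ h := by
  intro h1
  apply nx_ne h
  calc nx h = nx (nx (nx h)) := by rw [h1]
    _ = h := nx_nx_nx h

omit [Fintype V] [DecidableEq V] in
lemma others {x h : V × Fin 3} (h1 : h.1 = x.1) (h2 : h ≠ x) : h = nx x ∨ h = nx (nx x) := by
  obtain ⟨v, i⟩ := h
  obtain ⟨w, j⟩ := x
  obtain rfl : v = w := h1
  have h3 : i ≠ j := fun h => h2 (by rw [h])
  have h4 : i = j + 1 ∨ i = j + 1 + 1 := by
    clear h2
    revert h3
    revert i j
    decide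
  rcases h4 with h4 | h4
  · left
    rw [h4]
    rfl
  · right
    rw [h4]
    rfl

/-- Weight systems: isomorphism invariance and AS (`f1`), IHX (`f2`). -/
structure IsWS {B : Type} [AddCommGroup B] (F : Perm (V × Fin 3) → B) : Prop where
  f1 : ∀ (g : Perm (V × Fin 3)) (σ : Perm V), FP g σ → ∀ m, Mat m → F (cj g m) = eps g • F m
  f2 : ∀ m, Mat m → ∀ x, (m x).1 ≠ x.1 →
    F m + F (cj (cyc (nx x) (nx (nx x)) (nx (m x))) m) +
      F (cj (cyc (nx x) (nx (nx x)) (nx (m x)))⁻¹ m) = 0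

omit [Fintype V] in
lemma FP_swap {a b : V × Fin 3} (h : a.1 = b.1) : FP (swap a b) 1 := by
  intro x
  rw [Perm.one_apply]
  by_cases ha : x = a
  · rw [ha, swap_apply_left, h]
  · by_cases hb : x = b
    · rw [hb, swap_apply_right, h]
    · rw [swap_apply_of_ne_of_ne ha hb]

section general

variable {B : Type} [AddCommGroup B] {F : Perm (V × Fin 3) → B}

omit [DecidableEq V] in
lemma zero_of_eps_smul {g : Perm (V × Fin 3)} {σ : Perm V} (hg : FP g σ) {b : B}
    (h : eps g • b = 0) : b = 0 := by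
  have h1 : eps g • eps g • b = 0 := by rw [h, smul_zero]
  rwa [smul_smul, eps_sq hg, one_smul] at h1

/-- IHX with all choices of the half-edges. -/
lemma IsWS.f2' (hF : IsWS F) {m : Perm (V × Fin 3)} (hm : Mat m) {x a b c : V × Fin 3}
    (hx : (m x).1 ≠ x.1) (ha : a.1 = x.1) (hb : b.1 = x.1) (hax : a ≠ x) (hbx : b ≠ x)
    (hab : a ≠ b) (hc : c.1 = (m x).1) (hcx : c ≠ m x) :
    F m + F (cj (cyc a b c) m) + F (cj (cyc a b c)⁻¹ m) = 0 := by
  -- a permutation which moves `a, b, c` to the standard position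
  obtain ⟨g1, hg1, hg1a, hg1b, hg1o⟩ : ∃ g : Perm (V × Fin 3), FP g 1 ∧ g a = nx x ∧
      g b = nx (nx x) ∧ ∀ h, h ≠ a → h ≠ b → g h = h := by
    rcases others ha hax with h1 | h1
    · refine ⟨1, FP.one, h1, ?_, fun _ _ _ => rfl⟩
      rcases others hb hbx with h2 | h2
      · exact absurd (h1.trans h2.symm) hab
      · exact h2
    · refine ⟨swap a b, FP_swap (ha.trans hb.symm), ?_, ?_, fun h h3 h4 =>
        swap_apply_of_ne_of_ne h3 h4⟩
      · rw [swap_apply_left]
        rcases others hb hbx with h2 | h2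
        · exact h2
        · exact absurd (h1.trans h2.symm) hab
      · rw [swap_apply_right]
        exact h1
  have hcy : (nx (m x)).1 = c.1 := hc.symm
  let g2 : Perm (V × Fin 3) := swap c (nx (m x))
  have hg2 : FP g2 1 := FP_swap hcy.symm
  have hg2o : ∀ h : V × Fin 3, h.1 = x.1 → g2 h = h := by
    intro h h3
    refine swap_apply_of_ne_of_ne ?_ ?_
    · rintro rfl
      exact hx (hc.symm.trans h3)
    · rintro rfl
      exact hx h3
  have hg2y : g2 (m x) = m x :=
    swap_apply_of_ne_of_ne (Ne.symm hcx) (Ne.symm (nx_ne _))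
  have hg1y : ∀ h : V × Fin 3, h.1 = (m x).1 → g1 h = h := by
    intro h h3
    refine hg1o h ?_ ?_
    · rintro rfl
      exact hx (h3.symm.trans ha)
    · rintro rfl
      exact hx (h3.symm.trans hb)
  let g := g2 * g1
  have hg : FP g (1 * 1) := hg2.mul hg1
  have hga : g a = nx x := by
    show g2 (g1 a) = _
    rw [hg1a]
    exact hg2o _ rfl
  have hgb : g b = nx (nx x) := by
    show g2 (g1 b) = _
    rw [hg1b]
    exact hg2o _ rfl
  have hgc : g c = nx (m x) := by
    show g2 (g1 c) = _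
    rw [hg1y c hc]
    exact swap_apply_left _ _
  have hgx : g x = x := by
    show g2 (g1 x) = _
    rw [hg1o x (Ne.symm hax) (Ne.symm hbx)]
    exact hg2o _ rfl
  have hgy : g (m x) = m x := by
    show g2 (g1 (m x)) = _
    rw [hg1y _ rfl]
    exact hg2y
  have hm' := hm.cj g
  have hm'x : cj g m x = m x := by
    rw [cj_apply]
    have h1 : g⁻¹ x = x := by rw [Perm.inv_eq_iff_eq, hgx]
    rw [h1, hgy]
  have h2 := hF.f2 (cj g m) hm' x (by rw [hm'x]; exact hx)
  rw [hm'x] at h2
  have hz : cyc (nx x) (nx (nx x)) (nx (m x)) * g = g * cyc a b c := by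
    have h3 := conj_cyc g a b c
    rw [hga, hgb, hgc] at h3
    rw [← h3]
    group
  have hz' : (cyc (nx x) (nx (nx x)) (nx (m x)))⁻¹ * g = g * (cyc a b c)⁻¹ := by
    rw [inv_mul_eq_iff_eq_mul, ← mul_assoc, hz, mul_inv_cancel_right]
  have e1 : F (cj (cyc (nx x) (nx (nx x)) (nx (m x))) (cj g m)) = eps g • F (cj (cyc a b c) m) := by
    rw [← cj_mul, hz, cj_mul g, hF.f1 g _ hg _ (hm.cj _)]
  have e2 : F (cj (cyc (nx x) (nx (nx x)) (nx (m x)))⁻¹ (cj g m)) =
      eps g • F (cj (cyc a b c)⁻¹ m) := by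
    rw [← cj_mul, hz', cj_mul g, hF.f1 g _ hg _ (hm.cj _)]
  rw [e1, e2, hF.f1 g _ hg m hm, ← smul_add, ← smul_add] at h2
  exact zero_of_eps_smul hg h2

/-- The data of `k` disjoint edges. -/
structure ED (m : Perm (V × Fin 3)) (k : ℕ) (x a b c : ℕ → V × Fin 3) : Prop where
  ha : ∀ i < k, (a i).1 = (x i).1
  hb : ∀ i < k, (b i).1 = (x i).1
  hax : ∀ i < k, a i ≠ x i
  hbx : ∀ i < k, b i ≠ x i
  hab : ∀ i < k, a i ≠ b i
  hc : ∀ i < k, (c i).1 = (m (x i)).1
  hcx : ∀ i < k, c i ≠ m (x i)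
  xx : ∀ i < k, ∀ j < k, (x i).1 = (x j).1 → i = j
  yy : ∀ i < k, ∀ j < k, (m (x i)).1 = (m (x j)).1 → i = j
  xy : ∀ i < k, ∀ j < k, (x i).1 ≠ (m (x j)).1

/-- The product of the powers of the 3-cycles. -/
def ZZ {H : Type} (z : ℕ → Perm H) (k : ℕ) (s : Fin k → ℤˣ) : Perm H :=
  (List.ofFn fun i : Fin k => z i ^ ((s i : ℤˣ) : ℤ)).prod

lemma ZZ_snoc {H : Type} (z : ℕ → Perm H) (k : ℕ) (s : Fin k → ℤˣ) (e : ℤˣ) :
    ZZ z (k + 1) (Fin.snoc (α := fun _ => ℤˣ) s e) = ZZ z k s * z k ^ (e : ℤ) := by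
  unfold ZZ
  rw [List.ofFn_succ', List.prod_concat]
  simp only [Fin.snoc_castSucc, Fin.snoc_last, Fin.val_castSucc, Fin.val_last]

lemma zpow_unit_of_fix {H : Type} {z : Perm H} {x : H} (h : z x = x) (e : ℤˣ) :
    (z ^ (e : ℤ)) x = x := by
  rcases Int.units_eq_one_or e with rfl | rfl
  · rw [Units.val_one, zpow_one, h]
  · rw [Units.val_neg, Units.val_one, zpow_neg, zpow_one, Perm.inv_eq_iff_eq, h]

lemma zpow_unit_inv_of_fix {H : Type} {z : Perm H} {x : H} (h : z x = x) (e : ℤˣ) :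
    (z ^ (e : ℤ))⁻¹ x = x := by
  rw [Perm.inv_eq_iff_eq, zpow_unit_of_fix h]

/-- Simultaneous IHX at `k` disjoint edges. -/
theorem IsWS.multi (hF : IsWS F) (k : ℕ) : ∀ {m : Perm (V × Fin 3)}, Mat m →
    ∀ {x a b c : ℕ → V × Fin 3}, ED m k x a b c →
    F m = (-1 : ℤ) ^ k • ∑ s : Fin k → ℤˣ,
      F (cj (ZZ (fun i => cyc (a i) (b i) (c i)) k s) m) := by
  induction k with
  | zero =>
    intro m hm x a b c _
    rw [pow_zero, one_smul, Fintype.sum_unique]
    exact congrArg F (cj_one m).symm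
  | succ k ih =>
    intro m hm x a b c hE
    set z : ℕ → Perm (V × Fin 3) := fun i => cyc (a i) (b i) (c i) with hz
    have hk : k < k + 1 := Nat.lt_succ_self k
    have hxk : (m (x k)).1 ≠ (x k).1 := Ne.symm (hE.xy k hk k hk)
    have h1 := hF.f2' hm hxk (hE.ha k hk) (hE.hb k hk) (hE.hax k hk) (hE.hbx k hk) (hE.hab k hk)
      (hE.hc k hk) (hE.hcx k hk)
    have h2 : F m = (-1 : ℤ) • ∑ e : ℤˣ, F (cj (z k ^ (e : ℤ)) m) := by
      have h3 : (univ : Finset ℤˣ) = {1, -1} := rfl
      rw [h3, Finset.sum_pair (by decide), Units.val_one, zpow_one, Units.val_neg, Units.val_one,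
        zpow_neg, zpow_one, neg_smul, one_smul]
      rw [add_assoc] at h1
      exact eq_neg_of_add_eq_zero_left h1
    have hfix : ∀ i < k, ∀ e : ℤˣ, cj (z k ^ (e : ℤ)) m (x i) = m (x i) := by
      intro i hi e
      have hik : i < k + 1 := by omega
      have hne : i ≠ k := by omega
      have f1 : z k (x i) = x i := by
        refine cyc_of_ne ?_ ?_ ?_
        · intro h
          exact hne (hE.xx i hik k hk ((congrArg Prod.fst h).trans (hE.ha k hk)))
        · intro h
          exact hne (hE.xx i hik k hk ((congrArg Prod.fst h).trans (hE.hb k hk)))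
        · intro h
          exact hE.xy i hik k hk ((congrArg Prod.fst h).trans (hE.hc k hk))
      have f2 : z k (m (x i)) = m (x i) := by
        refine cyc_of_ne ?_ ?_ ?_
        · intro h
          exact hE.xy k hk i hik ((hE.ha k hk).symm.trans (congrArg Prod.fst h).symm)
        · intro h
          exact hE.xy k hk i hik ((hE.hb k hk).symm.trans (congrArg Prod.fst h).symm)
        · intro h
          exact hne (hE.yy i hik k hk ((congrArg Prod.fst h).trans (hE.hc k hk)))
      rw [cj_apply, zpow_unit_inv_of_fix f1, zpow_unit_of_fix f2]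
    have hE' : ∀ e : ℤˣ, ED (cj (z k ^ (e : ℤ)) m) k x a b c := by
      intro e
      constructor
      · exact fun i hi => hE.ha i (by omega)
      · exact fun i hi => hE.hb i (by omega)
      · exact fun i hi => hE.hax i (by omega)
      · exact fun i hi => hE.hbx i (by omega)
      · exact fun i hi => hE.hab i (by omega)
      · exact fun i hi => by rw [hfix i hi e]; exact hE.hc i (by omega)
      · exact fun i hi => by rw [hfix i hi e]; exact hE.hcx i (by omega)
      · exact fun i hi j hj => hE.xx i (by omega) j (by omega)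
      · exact fun i hi j hj => by
          rw [hfix i hi e, hfix j hj e]; exact hE.yy i (by omega) j (by omega)
      · exact fun i hi j hj => by rw [hfix j hj e]; exact hE.xy i (by omega) j (by omega)
    have h4 : ∀ e : ℤˣ, F (cj (z k ^ (e : ℤ)) m) = (-1 : ℤ) ^ k • ∑ s : Fin k → ℤˣ,
        F (cj (ZZ z (k + 1) (Fin.snoc (α := fun _ => ℤˣ) s e)) m) := by
      intro e
      rw [ih (hm.cj _) (hE' e)]
      congr 1
      refine Finset.sum_congr rfl fun s _ => ?_
      rw [← cj_mul, ZZ_snoc]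
    rw [h2]
    simp only [h4]
    rw [← Finset.smul_sum, smul_smul, ← pow_succ']
    congr 1
    rw [← Fintype.sum_prod_type' fun (e : ℤˣ) (s : Fin k → ℤˣ) =>
      F (cj (ZZ z (k + 1) (Fin.snoc (α := fun _ => ℤˣ) s e)) m)]
    exact Fintype.sum_equiv (Fin.snocEquiv fun _ : Fin (k + 1) => ℤˣ) _ _ fun p => rfl

end general

end Pool.Agent.helper16.GHS
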